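import Pool.Agent.X294.GR.Minor

open Finset

namespace Pool.Agent.X287.BP.AbsLe

open Pool.Agent.X294.GR

theorem pf_abs_le {m : ℕ} (A : Matrix (Fin (2 * m)) (Fin (2 * m)) ℝ) (c : ℝ)
    (s : Fin (2 * m) → ℝ) (hc : 0 ≤ c) (hs : ∀ i, 0 ≤ s i)
    (hA : ∀ i j, |A i j| ≤ c * (s i * s j)) :
    |pf A| ≤ ((2 * m).factorial : ℝ) / (2 ^ m * (m.factorial : ℝ)) * c ^ m * ∏ i, s i := by
  have h1 : ∀ σ : Equiv.Perm (Fin (2 * m)), |((Equiv.Perm.sign σ : ℤ) : ℝ) *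
      ∏ i : Fin m, A (σ (pr m i 0)) (σ (pr m i 1))| ≤ c ^ m * ∏ i, s i := by
    intro σ
    rw [abs_mul]
    have h2 : |((Equiv.Perm.sign σ : ℤ) : ℝ)| = 1 := by
      rcases Int.units_eq_one_or (Equiv.Perm.sign σ) with h | h <;> rw [h] <;> norm_num
    rw [h2, one_mul, abs_prod]
    calc ∏ i : Fin m, |A (σ (pr m i 0)) (σ (pr m i 1))|
        ≤ ∏ i : Fin m, (c * (s (σ (pr m i 0)) * s (σ (pr m i 1)))) :=
          prod_le_prod (fun _ _ => abs_nonneg _) fun i _ => hA _ _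
      _ = c ^ m * ∏ i : Fin m, (s (σ (pr m i 0)) * s (σ (pr m i 1))) := by
          rw [prod_mul_distrib, prod_const, card_univ, Fintype.card_fin]
      _ = c ^ m * ∏ x, s (σ x) := by rw [prod_pairs fun x => s (σ x)]
      _ = c ^ m * ∏ x, s x := by rw [Equiv.prod_comp σ s]
  unfold pf
  rw [abs_div, abs_of_pos (by positivity : (0 : ℝ) < 2 ^ m * (m.factorial : ℝ)),
    div_le_iff₀ (by positivity)]
  calc |∑ σ : Equiv.Perm (Fin (2 * m)), ((Equiv.Perm.sign σ : ℤ) : ℝ) *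
        ∏ i : Fin m, A (σ (pr m i 0)) (σ (pr m i 1))|
      ≤ ∑ σ : Equiv.Perm (Fin (2 * m)), |((Equiv.Perm.sign σ : ℤ) : ℝ) *
        ∏ i : Fin m, A (σ (pr m i 0)) (σ (pr m i 1))| := abs_sum_le_sum_abs _ _
    _ ≤ ∑ _σ : Equiv.Perm (Fin (2 * m)), c ^ m * ∏ i, s i := sum_le_sum fun σ _ => h1 σ
    _ = ((2 * m).factorial : ℝ) * (c ^ m * ∏ i, s i) := by
        rw [sum_const, card_univ, Fintype.card_perm, Fintype.card_fin, nsmul_eq_mul]
    _ = _ := by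
        have h3 : (2 : ℝ) ^ m * (m.factorial : ℝ) ≠ 0 := by positivity
        field_simp

end Pool.Agent.X287.BP.AbsLe
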