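import Pool.Agent.X294.GR.Defs

open PowerSeries

namespace Pool.Agent.X287.BP.Arr

open Pool.Agent.X294.GR

theorem ent_add (A B : S2) (i j : ℕ) : ent (A + B) i j = ent A i j + ent B i j := by simp [ent]
theorem ent_sub (A B : S2) (i j : ℕ) : ent (A - B) i j = ent A i j - ent B i j := by simp [ent]

theorem ent_vx_succ (G : S2) (i j : ℕ) : ent (vx * G) (i + 1) j = ent G i j := by
  rw [ent, coeff_succ_X_mul, ent]

theorem ent_vx_zero (G : S2) (j : ℕ) : ent (vx * G) 0 j = 0 := by
  rw [ent, coeff_zero_X_mul]; simp

theorem ent_vy_succ (G : S2) (i j : ℕ) : ent (vy * G) i (j + 1) = ent G i j := by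
  rw [ent, coeff_C_mul, coeff_succ_X_mul, ent]

theorem ent_vy_zero (G : S2) (i : ℕ) : ent (vy * G) i 0 = 0 := by
  rw [ent, coeff_C_mul, coeff_zero_X_mul]

theorem ent_vx (i j : ℕ) : ent vx i j = if i = 1 ∧ j = 0 then 1 else 0 := by
  rw [ent, coeff_X]
  by_cases h : i = 1
  · rw [if_pos h, coeff_one]
    by_cases h2 : j = 0 <;> simp [h, h2]
  · rw [if_neg h]; simp [h]

theorem ent_vy (i j : ℕ) : ent vy i j = if i = 0 ∧ j = 1 then 1 else 0 := by
  rw [ent, coeff_C]
  by_cases h : i = 0
  · rw [if_pos h, coeff_X]
    by_cases h2 : j = 1 <;> simp [h, h2]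
  · rw [if_neg h]; simp [h]

theorem arr (F : S2) (hF : (1 + vx * vy) * (1 - vx - vy - vx * vy) * F = vy - vx)
    (a : ℕ → ℕ → ℝ) (h1 : ∀ j, 1 < j → a 1 j = 2)
    (h2 : ∀ i j, 1 < i → i + 1 < j → a i j = a (i - 1) j + a i (j - 1) + a (i - 1) (j - 1))
    (h3 : ∀ i, 1 < i → a i (i + 1) = a (i - 1) (i + 1) + a (i - 1) i + 2 * (-1) ^ (i - 1))
    (h4 : ∀ i j, 1 ≤ j → j ≤ i → a i j = - a j i) :
    ∀ i j, a (i + 1) (j + 1) = 2 * ent F i j := by
  set K : S2 := (1 - vx - vy - vx * vy) * F with hK
  have hK2 : K + vx * (vy * K) = vy - vx := by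
    rw [← hF, hK]; ring
  have hFK : F - vx * F - vy * F - vx * (vy * F) = K := by rw [hK]; ring
  -- coefficients of K
  have kc : ∀ i j, ent K i j + ent (vx * (vy * K)) i j = ent vy i j - ent vx i j := by
    intro i j
    rw [← ent_add, hK2, ent_sub]
  have k0 : ∀ j, ent K 0 j = if j = 1 then 1 else 0 := by
    intro j
    have := kc 0 j
    rw [ent_vx_zero, ent_vy, ent_vx] at this
    simpa using this
  have k1 : ∀ i, ent K i 0 = if i = 1 then -1 else 0 := by
    intro i
    have := kc i 0
    cases i with
    | zero => rw [k0]; simp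
    | succ i =>
      rw [ent_vx_succ, ent_vy_zero, ent_vy, ent_vx] at this
      by_cases h : i = 0
      · subst h; simpa using this
      · simp [h] at this ⊢; exact this
  have k2 : ∀ i j, ent K (i + 1) (j + 1) = - ent K i j := by
    intro i j
    have := kc (i + 1) (j + 1)
    rw [ent_vx_succ, ent_vy_succ, ent_vy, ent_vx] at this
    simp at this
    linarith
  have kanti : ∀ i j, ent K i j = - ent K j i := by
    intro i
    induction i with
    | zero => intro j; rw [k0, k1]; by_cases h : j = 1 <;> simp [h]
    | succ i ih =>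
      intro j
      cases j with
      | zero => rw [k0, k1]; by_cases h : i = 0 <;> simp [h]
      | succ j => rw [k2, k2, ih j]
  have kdiag : ∀ i, ent K i (i + 1) = (-1) ^ i := by
    intro i
    induction i with
    | zero => rw [k0]; simp
    | succ i ih => rw [k2, ih, pow_succ]; ring
  have koff : ∀ i j, i + 1 < j → ent K i j = 0 := by
    intro i
    induction i with
    | zero => intro j hj; rw [k0, if_neg (by omega)]
    | succ i ih =>
      intro j hj
      cases j with
      | zero => omega
      | succ j => rw [k2, ih j (by omega), neg_zero]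
  -- coefficients of F
  have fc : ∀ i j, ent F i j - ent (vx * F) i j - ent (vy * F) i j - ent (vx * (vy * F)) i j =
      ent K i j := by
    intro i j
    rw [← ent_sub, ← ent_sub, ← ent_sub, hFK]
  have f00 : ent F 0 0 = 0 := by
    have := fc 0 0
    rw [ent_vx_zero, ent_vx_zero, ent_vy_zero, k0] at this
    simpa using this
  have f0 : ∀ j, ent F 0 (j + 1) = ent F 0 j + ent K 0 (j + 1) := by
    intro j
    have := fc 0 (j + 1)
    rw [ent_vx_zero, ent_vx_zero, ent_vy_succ] at this
    linarith
  have f1 : ∀ i, ent F (i + 1) 0 = ent F i 0 + ent K (i + 1) 0 := by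
    intro i
    have := fc (i + 1) 0
    rw [ent_vx_succ, ent_vx_succ, ent_vy_zero, ent_vy_zero] at this
    linarith
  have f2 : ∀ i j, ent F (i + 1) (j + 1) = ent F i (j + 1) + ent F (i + 1) j + ent F i j +
      ent K (i + 1) (j + 1) := by
    intro i j
    have := fc (i + 1) (j + 1)
    rw [ent_vx_succ, ent_vx_succ, ent_vy_succ, ent_vy_succ] at this
    linarith
  have f01 : ∀ j, ent F 0 (j + 1) = 1 := by
    intro j
    induction j with
    | zero => rw [f0, f00, k0]; simp
    | succ j ih => rw [f0, ih, k0]; simp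
  have fanti : ∀ i j, ent F i j = - ent F j i := by
    intro i
    induction i with
    | zero =>
      intro j
      induction j with
      | zero => rw [f00]; simp
      | succ j ih => rw [f0, f1, ih, kanti 0 (j + 1)]; ring
    | succ i ihi =>
      intro j
      induction j with
      | zero => rw [f0, f1, ihi 0, kanti (i + 1) 0]; ring
      | succ j ihj =>
        rw [f2, f2, ihi (j + 1), ihj, ihi j, kanti (i + 1) (j + 1)]; ring
  have fdiag : ∀ i, ent F i i = 0 := fun i => by have := fanti i i; linarith
  -- comparison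
  have main : ∀ i j, i < j → a (i + 1) (j + 1) = 2 * ent F i j := by
    intro i
    induction i with
    | zero =>
      intro j hj
      obtain ⟨j', rfl⟩ : ∃ j', j = j' + 1 := ⟨j - 1, by omega⟩
      rw [h1 _ (by omega), f01]; norm_num
    | succ i ih =>
      intro j
      induction j with
      | zero => intro hj; omega
      | succ j ihj =>
        intro hj
        rcases Nat.lt_or_ge (i + 1) j with h | h
        · rw [h2 (i + 1 + 1) (j + 1 + 1) (by omega) (by omega)]
          rw [show i + 1 + 1 - 1 = i + 1 by omega, show j + 1 + 1 - 1 = j + 1 by omega]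
          rw [ih (j + 1) (by omega), ihj h, ih j (by omega), f2, koff (i + 1) (j + 1) (by omega)]
          ring
        · have hj' : j = i + 1 := by omega
          subst hj'
          rw [h3 (i + 1 + 1) (by omega), show i + 1 + 1 - 1 = i + 1 by omega]
          rw [ih (i + 1 + 1) (by omega), ih (i + 1) (by omega), f2, fdiag, kdiag]
          ring
  intro i j
  rcases lt_trichotomy i j with h | h | h
  · exact main i j h
  · subst h
    have := h4 (i + 1) (i + 1) (by omega) le_rfl
    rw [fdiag]; linarith
  · rw [h4 (i + 1) (j + 1) (by omega) (by omega), main j i h, fanti i j]; ring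

end Pool.Agent.X287.BP.Arr
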