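import Pool.Agent.X287.BP.Stm

open Finset

namespace Pool.Agent.X287.BP

theorem p_dvd_choose (p s n i : ℕ) (hp : p.Prime) (hn : p ^ s ∣ n) (hi : 0 < i) (hi2 : i < p ^ s) :
    p ∣ n.choose i := by
  obtain ⟨i', rfl⟩ : ∃ i', i = i' + 1 := ⟨i - 1, by omega⟩
  rcases Nat.eq_zero_or_pos n with rfl | hn0
  · simp
  obtain ⟨n', rfl⟩ : ∃ n', n = n' + 1 := ⟨n - 1, by omega⟩
  by_contra hnd
  have h1 := Nat.add_one_mul_choose_eq n' i'
  have h2 : p ^ s ∣ (n' + 1).choose (i' + 1) * (i' + 1) := h1 ▸ Dvd.dvd.mul_right hn _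
  have h3 : Nat.Coprime (p ^ s) ((n' + 1).choose (i' + 1)) :=
    Nat.Coprime.pow_left _ ((Nat.Prime.coprime_iff_not_dvd hp).2 hnd)
  have h4 := Nat.Coprime.dvd_of_dvd_mul_left h3 h2
  exact absurd (Nat.le_of_dvd (by omega) h4) (by omega)

theorem refl_z (a : ℕ) (ha : Odd a) (x : ℤ) :
    Ring.choose ((a : ℤ) - 1 - x) a = - Ring.choose x a := by
  have h := Ring.choose_neg (x - a + 1) a
  rw [show -(x - (a : ℤ) + 1) = a - 1 - x by ring, show x - (a : ℤ) + 1 + a - 1 = x by ring] at h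
  rw [h]
  rw [Int.negOnePow_odd _ (by exact_mod_cast ha)]
  simp

theorem cong_z (p s a n : ℕ) (hp : p.Prime) (h : a < p ^ s) (hn : p ^ s ∣ n) (x : ℤ) :
    (p : ℤ) ∣ Ring.choose x a - Ring.choose (x - n) a := by
  have h1 := Ring.add_choose_eq (R := ℤ) a (Commute.all (n : ℤ) (x - n))
  rw [show (n : ℤ) + (x - n) = x by ring] at h1
  rw [h1, Finset.Nat.sum_antidiagonal_eq_sum_range_succ_mk, Finset.sum_range_succ']
  simp only [Ring.choose_zero_right, one_mul, Nat.sub_zero, add_sub_cancel_right]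
  refine Finset.dvd_sum fun i hi => ?_
  refine Dvd.dvd.mul_right ?_ _
  rw [Ring.choose_natCast]
  exact_mod_cast p_dvd_choose p s n (i + 1) hp hn (by omega) (by have := mem_range.1 hi; omega)

theorem t_P2 : P2 := by
  intro p s a e n hp hp2 ha he h hn
  have hea : 0 < e := he.pos
  have h2 : (2 * (S a e n : ℤ)) = ∑ h ∈ Ico a n,
      ((Ring.choose (h : ℤ) a) ^ e - (Ring.choose ((h : ℤ) - n) a) ^ e) := by
    have hS : (S a e n : ℤ) = ∑ h ∈ Ico a n, (Ring.choose (h : ℤ) a) ^ e := by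
      rw [S]
      rcases le_total a n with han | han
      · rw [range_eq_Ico, ← Finset.sum_Ico_consecutive _ (Nat.zero_le a) han]
        rw [Finset.sum_eq_zero (s := Ico 0 a), zero_add]
        · push_cast
          refine sum_congr rfl fun h _ => ?_
          rw [Ring.choose_natCast]
        · intro h hh
          rw [Nat.choose_eq_zero_of_lt (mem_Ico.1 hh).2, zero_pow (by omega)]
      · rw [Ico_eq_empty (by omega), sum_empty]
        rw [Finset.sum_eq_zero]
        · simp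
        · intro h hh
          rw [Nat.choose_eq_zero_of_lt (lt_of_lt_of_le (mem_range.1 hh) han), zero_pow (by omega)]
    have hS2 : (S a e n : ℤ) = ∑ h ∈ Ico a n, - (Ring.choose ((h : ℤ) - n) a) ^ e := by
      rw [hS]
      refine Finset.sum_bij' (fun h _ => n + a - 1 - h) (fun h _ => n + a - 1 - h) ?_ ?_ ?_ ?_ ?_
      · intro h hh; rw [mem_Ico] at hh ⊢; omega
      · intro h hh; rw [mem_Ico] at hh ⊢; omega
      · intro h hh; rw [mem_Ico] at hh; omega
      · intro h hh; rw [mem_Ico] at hh; omega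
      · intro h hh
        rw [mem_Ico] at hh
        have h3 : ((n + a - 1 - h : ℕ) : ℤ) - n = a - 1 - h := by omega
        rw [h3, refl_z a ha, he.neg_pow, neg_neg]
    rw [sum_sub_distrib, sub_eq_add_neg, ← sum_neg_distrib, ← hS, ← hS2]; ring
  have h3 : (p : ℤ) ∣ 2 * (S a e n : ℤ) := by
    rw [h2]
    exact Finset.dvd_sum fun x _ => (cong_z p s a n hp h hn x).trans (sub_dvd_pow_sub_pow _ _ _)
  have h4 : p ∣ 2 * S a e n := by exact_mod_cast h3
  exact (Nat.Coprime.dvd_of_dvd_mul_left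
    ((Nat.coprime_primes hp Nat.prime_two).2 hp2) h4)

end Pool.Agent.X287.BP
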