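import Pool.Agent.X287.BP.P4a

open Nat

namespace Pool.Agent.X287.BP

theorem t_P4 : P4 := by
  intro p a e v hp ha he h3 hae hpa hv hD hexc
  have : Fact p.Prime := ⟨hp⟩
  have hp1 : 1 < p := hp.one_lt
  have hvC := v_Cc p a e hp
  have hdv := fun k => dvd_Cc p a e k hp
  set f := padicValNat p e.factorial with hf
  set s := (Nat.digits p a).sum with hs
  set vC := padicValNat p (Cc a e) with hvCdef
  have hs1 : 1 ≤ s := digits_pos p a (by omega)
  have hpe : p ≤ e := hpa.trans hae
  set t := Nat.log p e with ht
  have ht1 : p ^ t ≤ e := Nat.pow_log_le_self p (by omega)
  have ht2 : e < p ^ (t + 1) := Nat.lt_pow_succ_log_self hp1 e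
  have htpos : 1 ≤ t := by
    rw [ht]; exact Nat.log_pos hp1 hpe
  have hFf : padicValNat p (p ^ t).factorial ≤ f := v_mono p _ _ ht1
  have hv2 : v ≤ 2 * t + 1 := by
    have h1 : p ^ v < p ^ (2 * t + 2) := by
      calc p ^ v ≤ a * e := hD
        _ ≤ e * e := Nat.mul_le_mul_right e hae
        _ < p ^ (t + 1) * p ^ (t + 1) := Nat.mul_lt_mul'' ht2 ht2
        _ = p ^ (2 * t + 2) := by rw [← pow_add]; congr 1; ring
    have := (Nat.pow_lt_pow_iff_right hp1).1 h1
    omega
  rcases hp.eq_two_or_odd' with rfl | hodd
  · -- p = 2
    have hs2 : 2 ≤ s := by
      by_contra hcon
      obtain ⟨r, hr⟩ := digits_one 2 (by norm_num) a (by omega)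
      rcases Nat.eq_zero_or_pos r with h0 | h0
      · rw [h0] at hr; omega
      · have : Even a := by rw [hr]; exact (Nat.even_pow.2 ⟨even_two, by omega⟩)
        exact (Nat.not_even_iff_odd.2 ha) this
    have h1 : 1 ≤ padicValNat 2 (a * e + 1) := by
      refine one_le_padicValNat_of_dvd (by omega) ?_
      exact ((ha.mul he).add_odd odd_one).two_dvd
    rcases Nat.lt_or_ge t 3 with h4 | h4
    · exfalso
      have h5 : e < 2 ^ 3 := lt_of_lt_of_le ht2 (Nat.pow_le_pow_right (by norm_num) (by omega))
      apply hexc
      obtain ⟨x, rfl⟩ := ha
      obtain ⟨y, rfl⟩ := he
      have hy : y ≤ 3 := by omega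
      have hx : x ≤ y := by omega
      have hx1 : 1 ≤ x := by omega
      interval_cases y <;> interval_cases x <;> simp [exc]
    · left
      apply hdv
      have h5 := F_even t h4
      have h6 : 2 * f ≤ s * f := Nat.mul_le_mul_right f hs2
      omega
  · have hp3 : 3 ≤ p := by
      rcases hodd with ⟨k, hk⟩
      omega
    have hsodd : Odd s := by
      have h1 := Nat.modEq_digits_sum 2 p (Nat.odd_iff.1 hodd) a
      rw [Nat.odd_iff]
      have h2 := Nat.odd_iff.1 ha
      have h5 : a % 2 = s % 2 := h1
      omega
    rcases Nat.lt_or_ge s 3 with hs3 | hs3
    · -- s = 1
      have hs1' : s = 1 := by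
        rcases hsodd with ⟨k, hk⟩
        omega
      obtain ⟨r, hr⟩ := digits_one p hp1 a hs1'
      have hfC : f ≤ vC := by
        rw [hs1', one_mul] at hvC
        omega
      have hr1 : 1 ≤ r := by
        rcases Nat.eq_zero_or_pos r with h0 | h0
        · rw [h0, pow_zero] at hr; omega
        · exact h0
      have hrt : r ≤ t := by
        have h1 : p ^ r < p ^ (t + 1) := by rw [← hr]; omega
        have := (Nat.pow_lt_pow_iff_right hp1).1 h1
        omega
      have hvrt : v ≤ r + t := by
        have h1 : p ^ v < p ^ (r + (t + 1)) := by
          calc p ^ v ≤ a * e := hD
            _ < p ^ r * p ^ (t + 1) := by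
              rw [hr]; exact Nat.mul_lt_mul_of_pos_left ht2 (by positivity)
            _ = _ := by rw [← pow_add]
        have := (Nat.pow_lt_pow_iff_right hp1).1 h1
        omega
      rcases Nat.lt_or_ge t 3 with h4 | h4
      · obtain h5 | h5 : t = 1 ∨ t = 2 := by omega
        · -- t = 1
          have hr' : r = 1 := by omega
          have hap : a = p := by rw [hr, hr', pow_one]
          have hfm : ∀ m, p * m ≤ e → m ≤ vC := fun m hm =>
            ((v_mulp p m).trans (v_mono p _ _ hm)).trans hfC
          rcases Nat.lt_or_ge e (p * 4) with h6 | h6
          · rcases Nat.lt_or_ge e (p * 3) with h7 | h7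
            · rcases Nat.lt_or_ge e (p * 2) with h8 | h8
              · have h9 := hfm 1 (by omega)
                obtain hv' | hv' : v = 1 ∨ v = 2 := by omega
                · right; right; left
                  exact ⟨by omega, hap, by omega, hv', by simpa using hdv 1 h9⟩
                · right; right; right; left
                  exact ⟨by omega, hap, by omega, hv', by simpa using hdv 1 h9⟩
              · have h9 := hfm 2 h8
                obtain hv' | hv' : v = 1 ∨ v = 2 := by omega
                · left; apply hdv; omega
                · right; right; right; right
                  exact ⟨by omega, hap, by omega, by omega, hv', hdv 2 h9⟩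
            · have h9 := hfm 3 h7
              obtain hv' | hv' : v = 1 ∨ v = 2 := by omega
              · left; apply hdv; omega
              · right; left
                refine ⟨by omega, ?_, ?_⟩
                · rw [hap, hv']; nlinarith
                · apply hdv; omega
          · left; apply hdv
            have := hfm 4 h6
            omega
        · -- t = 2
          rw [h5] at hFf ht2 ht1
          rw [F_two] at hFf
          obtain hr' | hr' : r = 1 ∨ r = 2 := by omega
          · rcases Nat.lt_or_ge p 5 with h6 | h6
            · have hp3' : p = 3 := by
                rcases hodd with ⟨k, hk⟩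
                omega
              subst hp3'
              have ha3 : a = 3 := by rw [hr, hr']; norm_num
              have h7 : 12 ≤ e := by
                by_contra hcon
                apply hexc
                have h8 : e = 9 ∨ e = 11 := by
                  rcases he with ⟨k, hk⟩
                  omega
                rcases h8 with h8 | h8 <;> rw [ha3, h8] <;> simp [exc]
              have h8 : 5 ≤ vC := by
                have h9 : padicValNat 3 (3 * 4).factorial ≤ f := v_mono 3 _ _ h7
                have h10 : 1 ≤ padicValNat 3 (4).factorial :=
                  (v_mulp 3 1).trans (v_mono 3 _ _ (by norm_num))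
                rw [v_pmul] at h9
                omega
              rcases Nat.lt_or_ge v 3 with h9 | h9
              · left; apply hdv; omega
              · have hv' : v = 3 := by omega
                right; left
                refine ⟨by omega, ?_, ?_⟩
                · rw [ha3, hv']; norm_num
                · apply hdv; omega
            · left; apply hdv; omega
          · rcases Nat.lt_or_ge p 7 with h6 | h6
            · have hp35 : p = 3 ∨ p = 5 := by
                rcases hodd with ⟨k, hk⟩
                omega
              rcases hp35 with hp3' | hp5'
              · subst hp3'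
                have ha3 : a = 9 := by rw [hr, hr']; norm_num
                have h7 : 18 ≤ e := by
                  by_contra hcon
                  apply hexc
                  have h8 : e = 9 ∨ e = 11 ∨ e = 13 ∨ e = 15 ∨ e = 17 := by
                    rcases he with ⟨k, hk⟩
                    omega
                  rcases h8 with h8 | h8 | h8 | h8 | h8 <;> rw [ha3, h8] <;> simp [exc]
                have h8 : 8 ≤ vC := by
                  have h9 : padicValNat 3 (3 * 6).factorial ≤ f := v_mono 3 _ _ h7
                  have h10 : 2 ≤ padicValNat 3 (6).factorial := v_mulp 3 2
                  rw [v_pmul] at h9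
                  omega
                left; apply hdv; omega
              · subst hp5'
                have ha3 : a = 25 := by rw [hr, hr']; norm_num
                have h7 : 30 ≤ e := by
                  by_contra hcon
                  apply hexc
                  have h8 : e = 25 ∨ e = 27 ∨ e = 29 := by
                    rcases he with ⟨k, hk⟩
                    omega
                  rcases h8 with h8 | h8 | h8 <;> rw [ha3, h8] <;> simp [exc]
                have h8 : 7 ≤ vC := by
                  have h9 : padicValNat 5 (5 * 6).factorial ≤ f := v_mono 5 _ _ h7
                  have h10 : 1 ≤ padicValNat 5 (6).factorial :=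
                    (v_mulp 5 1).trans (v_mono 5 _ _ (by norm_num))
                  rw [v_pmul] at h9
                  omega
                rcases Nat.lt_or_ge v 4 with h9 | h9
                · left; apply hdv; omega
                · have hv' : v = 4 := by omega
                  right; left
                  refine ⟨by omega, ?_, ?_⟩
                  · rw [ha3, hv']; norm_num
                  · apply hdv; omega
            · left; apply hdv; omega
      · left; apply hdv
        have := F_big p hp3 t h4
        omega
    · -- s ≥ 3
      have hfC : 3 * f ≤ vC := by
        have h6 : 3 * f ≤ s * f := Nat.mul_le_mul_right f hs3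
        omega
      rcases Nat.lt_or_ge e (p * 2) with h4 | h4
      · have h5 : 1 ≤ f := (v_mulp p 1).trans (v_mono p _ _ (by omega))
        have h6 : v < 3 := by
          have h7 : p ^ v < p ^ 3 := by
            have h8 : a * e ≤ (2 * p - 1) * (2 * p - 1) := Nat.mul_le_mul (by omega) (by omega)
            have h9 : (2 * p - 1) * (2 * p - 1) < p ^ 3 := by
              obtain ⟨q, rfl⟩ : ∃ q, p = q + 3 := ⟨p - 3, by omega⟩
              have : 2 * (q + 3) - 1 = 2 * q + 5 := by omega
              rw [this]
              ring_nf
              nlinarith
            omega
          exact (Nat.pow_lt_pow_iff_right hp1).1 h7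
        obtain hv' | hv' : v = 1 ∨ v = 2 := by omega
        · left; apply hdv; omega
        · right; left
          refine ⟨by omega, ?_, ?_⟩
          · rw [hv']; nlinarith
          · apply hdv; omega
      · have h5 : 2 * t ≤ f := by
          rcases Nat.lt_or_ge t 2 with h6 | h6
          · have := (v_mulp p 2).trans (v_mono p _ _ h4)
            omega
          · exact (F_mid p hp3 t h6).trans hFf
        left; apply hdv; omega

end Pool.Agent.X287.BP
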