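import Pool.Agent.X287.BP.Stm

open Finset

namespace Pool.Agent.X287.BP

/-- force the evaluation of the first two arguments -/
def go (a e c : ℕ) : ℕ → ℕ → ℕ → ℕ → Bool
  | 0, _, _, _ => true
  | (k + 1), h, b, acc =>
    Nat.rec (motive := fun _ => Bool) true (fun b' _ =>
      Nat.rec (motive := fun _ => Bool)
        (go a e c k (h + 1) ((b' + 1) * (h + 1) / (h + 1 - a)) ((b' + 1) ^ e))
        (fun acc' _ =>
          (c * (acc' + 1)) % (h ^ 2) == 0 &&
            go a e c k (h + 1) ((b' + 1) * (h + 1) / (h + 1 - a)) ((acc' + 1) + (b' + 1) ^ e))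
        acc) b

theorem go_spec (a e c : ℕ) (he : 0 < e) : ∀ (k h b acc : ℕ), a ≤ h → b = h.choose a →
    acc = S a e h → go a e c k h b acc = true → ∀ n, h ≤ n → n < h + k → n ^ 2 ∣ c * S a e n
  | 0, h, b, acc, _, _, _, _, n, h1, h2 => by omega
  | (k + 1), h, b, acc, hh, hb, hacc, hg, n, h1, h2 => by
    have hbpos : 0 < b := by rw [hb]; exact Nat.choose_pos hh
    obtain ⟨b', rfl⟩ : ∃ b', b = b' + 1 := ⟨b - 1, by omega⟩
    have hb2 : (b' + 1) * (h + 1) / (h + 1 - a) = (h + 1).choose a := by
      rw [hb]
      have h3 : 0 < h + 1 - a := by omega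
      apply Nat.div_eq_of_eq_mul_left h3
      rw [Nat.choose_mul_succ_eq]
    have hS : S a e (h + 1) = S a e h + (h.choose a) ^ e := by
      rw [S, S, sum_range_succ]
    cases acc with
    | zero =>
      have hg' : go a e c k (h + 1) ((b' + 1) * (h + 1) / (h + 1 - a)) ((b' + 1) ^ e) = true := hg
      rcases Nat.eq_or_lt_of_le h1 with rfl | h4
      · rw [← hacc]; simp
      · exact go_spec a e c he k (h + 1) _ _ (by omega) hb2 (by rw [hS, ← hacc, hb]; simp) hg' n h4
          (by omega)
    | succ acc' =>
      have hg' : ((c * (acc' + 1)) % (h ^ 2) == 0 &&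
            go a e c k (h + 1) ((b' + 1) * (h + 1) / (h + 1 - a)) ((acc' + 1) + (b' + 1) ^ e))
            = true := hg
      rw [Bool.and_eq_true] at hg'
      rcases Nat.eq_or_lt_of_le h1 with rfl | h4
      · rw [← hacc]
        exact Nat.dvd_of_mod_eq_zero (by simpa using hg'.1)
      · exact go_spec a e c he k (h + 1) _ _ (by omega) hb2 (by rw [hS, ← hacc, hb]) hg'.2 n h4
          (by omega)

theorem fin_of_go (a e c : ℕ) (he : 0 < e) (ha : 0 < a) (hc : Cc a e = c)
    (h : go a e c (a * e + 1 - a) a 1 0 = true) :
    ∀ n, 1 ≤ n → n ≤ a * e → n ^ 2 ∣ Cc a e * S a e n := by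
  intro n hn hn2
  rw [hc]
  have hz : ∀ m, m ≤ a → S a e m = 0 := by
    intro m hm
    rw [S]
    refine sum_eq_zero fun x hx => ?_
    rw [Nat.choose_eq_zero_of_lt (lt_of_lt_of_le (mem_range.1 hx) hm), zero_pow (by omega)]
  rcases lt_or_ge n a with h1 | h1
  · rw [hz n h1.le]; simp
  · refine go_spec a e c he _ a 1 0 le_rfl (by simp) (hz a le_rfl).symm h n h1 ?_
    have : a ≤ a * e := Nat.le_mul_of_pos_right a he
    omega

set_option maxRecDepth 100000 in
theorem f_3_3 : ∀ n, 1 ≤ n → n ≤ 3 * 3 → n ^ 2 ∣ Cc 3 3 * S 3 3 n :=
  fin_of_go 3 3 16800 (by norm_num) (by norm_num) (by decide +kernel) (by decide +kernel)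

set_option maxRecDepth 100000 in
theorem f_3_5 : ∀ n, 1 ≤ n → n ≤ 3 * 5 → n ^ 2 ∣ Cc 3 5 * S 3 5 n :=
  fin_of_go 3 5 2690688000 (by norm_num) (by norm_num) (by decide +kernel) (by decide +kernel)

set_option maxRecDepth 100000 in
theorem f_3_7 : ∀ n, 1 ≤ n → n ≤ 3 * 7 → n ^ 2 ∣ Cc 3 7 * S 3 7 n :=
  fin_of_go 3 7 4015206074880000 (by norm_num) (by norm_num) (by decide +kernel) (by decide +kernel)

set_option maxRecDepth 100000 in
theorem f_5_5 : ∀ n, 1 ≤ n → n ≤ 5 * 5 → n ^ 2 ∣ Cc 5 5 * S 5 5 n :=
  fin_of_go 5 5 16207379321253120 (by norm_num) (by norm_num) (by decide +kernel) (by decide +kernel)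

set_option maxRecDepth 100000 in
theorem f_5_7 : ∀ n, 1 ≤ n → n ≤ 5 * 7 → n ^ 2 ∣ Cc 5 7 * S 5 7 n :=
  fin_of_go 5 7 1038165104004523627353661440 (by norm_num) (by norm_num) (by decide +kernel) (by decide +kernel)

set_option maxRecDepth 100000 in
theorem f_7_7 : ∀ n, 1 ≤ n → n ≤ 7 * 7 → n ^ 2 ∣ Cc 7 7 * S 7 7 n :=
  fin_of_go 7 7 368180783307859480199129273101516800000 (by norm_num) (by norm_num) (by decide +kernel) (by decide +kernel)

set_option maxRecDepth 100000 in
theorem f_3_9 : ∀ n, 1 ≤ n → n ≤ 3 * 9 → n ^ 2 ∣ Cc 3 9 * S 3 9 n :=
  fin_of_go 3 9 30253774733005824000000 (by norm_num) (by norm_num) (by decide +kernel) (by decide +kernel)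

set_option maxRecDepth 100000 in
theorem f_3_11 : ∀ n, 1 ≤ n → n ≤ 3 * 11 → n ^ 2 ∣ Cc 3 11 * S 3 11 n :=
  fin_of_go 3 11 813768453070369294417920000000 (by norm_num) (by norm_num) (by decide +kernel) (by decide +kernel)

set_option maxRecDepth 100000 in
theorem f_9_9 : ∀ n, 1 ≤ n → n ≤ 9 * 9 → n ^ 2 ∣ Cc 9 9 * S 9 9 n :=
  fin_of_go 9 9 4356716473923780722948300280805343178596630472846095375331496320000000000 (by norm_num) (by norm_num) (by decide +kernel) (by decide +kernel)

set_option maxRecDepth 100000 in
theorem f_9_11 : ∀ n, 1 ≤ n → n ≤ 9 * 11 → n ^ 2 ∣ Cc 9 11 * S 9 11 n :=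
  fin_of_go 9 11 6495465689464957827406634929346621724233345023056067531253886863352891148736488830720000000000000 (by norm_num) (by norm_num) (by decide +kernel) (by decide +kernel)

set_option maxRecDepth 100000 in
theorem f_9_13 : ∀ n, 1 ≤ n → n ≤ 9 * 13 → n ^ 2 ∣ Cc 9 13 * S 9 13 n :=
  fin_of_go 9 13 247597475540112855695681000971044717544884595008582376616984929303319044672060217747579132195175367744403174400000000000000 (by norm_num) (by norm_num) (by decide +kernel) (by decide +kernel)

set_option maxRecDepth 100000 in
theorem f_9_15 : ∀ n, 1 ≤ n → n ≤ 9 * 15 → n ^ 2 ∣ Cc 9 15 * S 9 15 n :=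
  fin_of_go 9 15 146866250024537719167694678229648727383268903494471820515692399709400917119151900711204321321108529877536805135702351180103665293312000000000000000000 (by norm_num) (by norm_num) (by decide +kernel) (by decide +kernel)

set_option maxRecDepth 100000 in
theorem f_9_17 : ∀ n, 1 ≤ n → n ≤ 9 * 17 → n ^ 2 ∣ Cc 9 17 * S 9 17 n :=
  fin_of_go 9 17 941791006542867971244525321360895637163877099624066562438596434967357621860194717410073323359625869903288156155239192240984216920435629839228432788757493145600000000000000000000 (by norm_num) (by norm_num) (by decide +kernel) (by decide +kernel)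

set_option maxRecDepth 100000 in
theorem f_25_25 : ∀ n, 1 ≤ n → n ≤ 25 * 25 → n ^ 2 ∣ Cc 25 25 * S 25 25 n :=
  fin_of_go 25 25 65838489971600818143017234118239125159676970028391848417171517415896058687303939928814513375958700692850253965048805324037079814359354511106435091755734071562432065526972053305618437699881128148884688402813278009080888356509399265798351389472532018028632185174308232405026038572916873028454362457297390283635561767924501556898282905191160868124352075946265970947716747143374311451790990047320879779579940223584616899301360607850489859225716560780558129048732847435395403236401607764750955635880316206954166794985775909061307076741177411715329682538642998526572122266044143572079835707574658878163802890699472518917061166560968753279259567752578997261280578175062890549584715426960776830834313394667959950449820122910434792563651569702606180278389336324685249124013803386997678269737851477255812026844889760538128394435796730616246774334157225984000000 (by norm_num) (by norm_num) (by decide +kernel) (by decide +kernel)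

set_option maxRecDepth 100000 in
theorem f_25_27 : ∀ n, 1 ≤ n → n ≤ 25 * 27 → n ^ 2 ∣ Cc 25 27 * S 25 27 n :=
  fin_of_go 25 27 134146757857448344514408150625157225235154842680465329774561348819750297616176892197874351339840661023447494234500486204123640015765266520468815493499115840733429534922543527496769613796190744122587346232316438804949498523999556963116795133443376665726594215129868026563472048706727411190191921818275483315535507559627292827056725567184465243463193106550980483393687324125167708794886448183307932931771704521955791592404360681136525299753746375230172854254877257903495241327421327468581891888563997636943209105306539307164701849070436358902288522935721719454059867547989673758424203474205990342999659342104619720006794386196104950783412214438824847416739206986756590472729752713370857827773639369523723543677690965734929029706812937876067467312311433534511151152043639149687374637534533813264151905306889899971992432114221945475342783629673250876422036910385817867553657507082772649363426715521698713964870642743354637644468437194375168000000 (by norm_num) (by norm_num) (by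 decide +kernel) (by decide +kernel)

set_option maxRecDepth 100000 in
theorem f_25_29 : ∀ n, 1 ≤ n → n ≤ 25 * 29 → n ^ 2 ∣ Cc 25 29 * S 25 29 n :=
  fin_of_go 25 29 11042722915416281191271439340508897620383209505775530404752138292603786546816062434009939142314912441593553261176950574200434389562186345813935070582034483877555728706579167577537019161731272917830041769470315168126054030313944966879356842304059255748369229872247918257085134984631266510727322798358874551765755556133184321475170321624696277378640067609908643397528285890294137842391796805309053850294961679811545378917477079493838182087013589773289343881523029679571760659086443306117697208627781762292890067236298781096508965210910922614675017121827248515856414712338756250572324607343938896034004956245526110394259879896817037297884163098152023150736046552468256609596733424042379149694387682139734607029000629517086959647890303054930183691951677047865475867920382034645397419092119816368734408207616685432318232162492082943383333424300889488101364976822721171349392019400738272726845505587991027620423739416832594668077029364771353519984388397752510470962497119191683482371201824107279919880414536882970883847117883851145216000000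 (by norm_num) (by norm_num) (by decide +kernel) (by decide +kernel)

theorem t_P5 (a e : ℕ) (h : (a, e) ∈ exc) : ∀ n, 1 ≤ n → n ≤ a * e → n ^ 2 ∣ Cc a e * S a e n := by
  simp only [exc, List.mem_cons, Prod.mk.injEq, List.not_mem_nil, or_false] at h
  rcases h with ⟨rfl, rfl⟩ | ⟨rfl, rfl⟩ | ⟨rfl, rfl⟩ | ⟨rfl, rfl⟩ | ⟨rfl, rfl⟩ | ⟨rfl, rfl⟩ | ⟨rfl, rfl⟩ | ⟨rfl, rfl⟩ | ⟨rfl, rfl⟩ | ⟨rfl, rfl⟩ | ⟨rfl, rfl⟩ | ⟨rfl, rfl⟩ | ⟨rfl, rfl⟩ | ⟨rfl, rfl⟩ | ⟨rfl, rfl⟩ | ⟨rfl, rfl⟩
  · exact f_3_3
  · exact f_3_5
  · exact f_3_7
  · exact f_5_5
  · exact f_5_7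
  · exact f_7_7
  · exact f_3_9
  · exact f_3_11
  · exact f_9_9
  · exact f_9_11
  · exact f_9_13
  · exact f_9_15
  · exact f_9_17
  · exact f_25_25
  · exact f_25_27
  · exact f_25_29

end Pool.Agent.X287.BP
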