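import Pool.Agent.X287.BP.P1
import Pool.Agent.X287.BP.P2
import Pool.Agent.X287.BP.P4
import Pool.Agent.X287.BP.P5

namespace Pool.Agent.X287.BP

/-- large primes -/
theorem large (p a e v : ℕ) (hp : p.Prime) (hpa : a < p) (hv : 1 ≤ v) (hD : p ^ v ≤ a * e) :
    p ^ (2 * v - 1) ∣ Cc a e := by
  have h1 := Cc_mul a e
  have h2 : Nat.Coprime (p ^ (2 * v - 1)) (a.factorial ^ e) := by
    apply Nat.Coprime.pow
    rw [Nat.Prime.coprime_iff_not_dvd hp, hp.dvd_factorial]
    omega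
  apply Nat.Coprime.dvd_of_dvd_mul_right h2
  rw [h1]
  have h3 : (p ^ v).factorial ∣ (a * e + 1).factorial := Nat.factorial_dvd_factorial (by omega)
  refine dvd_trans ?_ h3
  obtain ⟨w, rfl⟩ : ∃ w, v = w + 1 := ⟨v - 1, by omega⟩
  have h4 : p ^ w < p ^ (w + 1) := Nat.pow_lt_pow_right hp.one_lt (Nat.lt_succ_self w)
  obtain ⟨q, hq⟩ : ∃ q, p ^ (w + 1) = q + 1 := ⟨p ^ (w + 1) - 1, by omega⟩
  rw [hq, Nat.factorial_succ, ← hq]
  have h5 : p ^ (2 * (w + 1) - 1) = p ^ (w + 1) * p ^ w := by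
    rw [← pow_add]; congr 1; omega
  rw [h5]
  exact Nat.mul_dvd_mul_left _ (Nat.dvd_factorial (pow_pos hp.pos _) (by omega))

theorem main (h3a : P3a) (h3b : P3b) (h3c : P3c) (a e : ℕ) (ha : Odd a) (he : Odd e) (h3 : 3 ≤ a)
    (hae : a ≤ e) : ∀ n, n ^ 2 ∣ Cc a e * S a e n := by
  apply t_P1 a e (Cc a e) ha he (h3.trans hae)
  intro n hn hn2
  by_cases hexc : (a, e) ∈ exc
  · exact t_P5 a e hexc n hn hn2
  rw [Nat.dvd_iff_prime_pow_dvd_dvd]
  intro p k hp hk
  have : Fact p.Prime := ⟨hp⟩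
  set v := padicValNat p n with hv
  have hvn : p ^ v ∣ n := pow_padicValNat_dvd
  have hk2 : k ≤ 2 * v := by
    have h1 := (padicValNat_dvd_iff_le (p := p) (by positivity : n ^ 2 ≠ 0)).1 hk
    rw [padicValNat.pow] at h1
    exact h1
  refine (pow_dvd_pow p hk2).trans ?_
  rcases Nat.eq_zero_or_pos v with h0 | h0
  · rw [h0]; simp
  have hD : p ^ v ≤ a * e := (Nat.le_of_dvd hn hvn).trans hn2
  have hsplit : ∀ i j, 2 * v = i + j → p ^ i ∣ Cc a e → p ^ j ∣ S a e n →
      p ^ (2 * v) ∣ Cc a e * S a e n := by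
    intro i j hij h1 h2
    rw [hij, pow_add]
    exact Nat.mul_dvd_mul h1 h2
  rcases Nat.lt_or_ge a p with h1 | h1
  · have h4 : a < p ^ v := lt_of_lt_of_le h1 (Nat.le_self_pow (by omega) p)
    refine hsplit (2 * v - 1) 1 (by omega) (large p a e v hp h1 h0 hD) ?_
    rw [pow_one]
    exact t_P2 p v a e n hp (by omega) ha he h4 hvn
  · rcases t_P4 p a e v hp ha he h3 hae h1 h0 hD hexc with h4 | ⟨h5, h6, h7⟩ | ⟨h5, h6, h7, h8, h9⟩ |
      ⟨h5, h6, h7, h8, h9⟩ | ⟨h5, h6, h7, h8, h9, h10⟩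
    · exact hsplit (2 * v) 0 (by omega) h4 (by simp)
    · refine hsplit (2 * v - 1) 1 (by omega) h7 ?_
      rw [pow_one]
      exact t_P2 p v a e n hp h5 ha he h6 hvn
    · rw [h8, pow_one] at hvn
      obtain ⟨u, hu⟩ := hvn
      refine hsplit 1 1 (by omega) (by simpa using h9) ?_
      rw [pow_one, hu]
      have := h3a p e u hp h5 he
      rwa [← h6] at this ⊢
    · rw [h8] at hvn hD
      obtain ⟨u, hu⟩ := hvn
      have hu1 : u = 1 := by
        have h11 : p ^ 2 * u < p ^ 2 * 2 := by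
          rw [← hu]
          calc n ≤ a * e := hn2
            _ = p * e := by rw [h6]
            _ < p * (2 * p) := Nat.mul_lt_mul_of_pos_left h7 hp.pos
            _ = p ^ 2 * 2 := by ring
        have h12 := lt_of_mul_lt_mul_left h11 (Nat.zero_le _)
        rcases Nat.eq_zero_or_pos u with h13 | h13
        · rw [h13, mul_zero] at hu; omega
        · omega
      refine hsplit 1 3 (by omega) (by simpa using h9) ?_
      rw [hu, hu1, mul_one]
      have := h3c p e hp h5 he (by rw [← h6]; exact hae) h7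
      rwa [← h6] at this ⊢
    · rw [h9] at hvn
      obtain ⟨u, hu⟩ := hvn
      refine hsplit 2 2 (by omega) h10 ?_
      rw [hu]
      have := h3b p e u hp h5 he
      rwa [← h6] at this ⊢

end Pool.Agent.X287.BP
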