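import Pool.Agent.X294.GR.Bd

open Finset PowerSeries

namespace Pool.Agent.X287.BP.Bord

open Pool.Agent.X294.GR

/-- the congruence matrix -/
noncomputable def L1 (M : ℕ) (P : S1) : Matrix (Fin (2 * (M + 1))) (Fin (2 * (M + 1))) ℝ :=
  Matrix.of fun i a => if (i : ℕ) < 2 * M + 1 then To (2 * (M + 1)) P i a
    else (if a = i then 1 else 0)

theorem det_L1 (M : ℕ) (P : S1) : (L1 M P).det = (PowerSeries.coeff 0 P) ^ (2 * M + 1) := by
  rw [Matrix.det_of_lowerTriangular]
  · have h1 : ∀ i : Fin (2 * (M + 1)), L1 M P i i =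
        (fun i : ℕ => if i < 2 * M + 1 then PowerSeries.coeff 0 P else 1) i := by
      intro i
      simp only [L1, Matrix.of_apply, To]
      by_cases h : (i : ℕ) < 2 * M + 1 <;> simp [h]
    rw [prod_congr rfl fun i _ => h1 i, Fin.prod_univ_eq_prod_range
      (fun i : ℕ => if i < 2 * M + 1 then PowerSeries.coeff 0 P else 1),
      show 2 * (M + 1) = 2 * M + 1 + 1 by ring, prod_range_succ]
    rw [if_neg (by omega), mul_one]
    rw [prod_congr rfl (g := fun _ => PowerSeries.coeff 0 P) fun i hi => by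
      rw [if_pos (mem_range.1 hi)]]
    simp
  · intro i j hij
    have hij' : (i : ℕ) < j := by simpa using hij
    simp only [L1, Matrix.of_apply, To]
    have hj := j.2
    rw [if_pos (by omega), if_neg (by omega)]

theorem L1_sum (M : ℕ) (P : S1) (i : Fin (2 * (M + 1))) (hi : (i : ℕ) < 2 * M + 1)
    (G : Fin (2 * (M + 1)) → ℝ) (g : ℕ → ℝ) (hG : ∀ a : Fin (2 * (M + 1)), (a : ℕ) < 2 * M + 1 →
      G a = g a) :
    ∑ a, L1 M P i a * G a = ∑ p ∈ antidiagonal (i : ℕ), PowerSeries.coeff p.1 P * g p.2 := by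
  rw [anti_fin i P g]
  refine sum_congr rfl fun a _ => ?_
  simp only [L1, Matrix.of_apply, if_pos hi, To]
  by_cases h : (a : ℕ) ≤ i
  · rw [hG a (by omega)]
  · rw [if_neg h, zero_mul, zero_mul]

theorem L1_last (M : ℕ) (P : S1) (i : Fin (2 * (M + 1))) (hi : ¬ (i : ℕ) < 2 * M + 1)
    (G : Fin (2 * (M + 1)) → ℝ) : ∑ a, L1 M P i a * G a = G i := by
  simp only [L1, Matrix.of_apply, if_neg hi, ite_mul, one_mul, zero_mul, sum_ite_eq',
    mem_univ, if_true]

theorem bd_cong (M : ℕ) (P : S1) (E : S2) (g : S1) :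
    pf (bd M (ent (ix P * (iy P * E))) (cf (P * g))) =
      (PowerSeries.coeff 0 P) ^ (2 * M + 1) * pf (bd M (ent E) (cf g)) := by
  rw [← det_L1, ← pf_congr]
  congr 1
  ext i j
  have hmul : (L1 M P * bd M (ent E) (cf g) * (L1 M P).transpose) i j =
      ∑ b, L1 M P j b * ∑ a, L1 M P i a * bd M (ent E) (cf g) a b := by
    rw [Matrix.mul_apply]
    refine sum_congr rfl fun b _ => ?_
    rw [Matrix.mul_apply, Matrix.transpose_apply, mul_comm]
  rw [hmul]
  by_cases hi : (i : ℕ) < 2 * M + 1
  · by_cases hj : (j : ℕ) < 2 * M + 1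
    · rw [L1_sum M P j hj _ (fun b => ∑ p ∈ antidiagonal (i : ℕ),
        PowerSeries.coeff p.1 P * ent E p.2 b)]
      · simp only [bd, Matrix.of_apply, if_pos hi, if_pos hj]
        rw [ent_mul, sum_comm]
        refine sum_congr rfl fun s _ => ?_
        rw [mul_sum]
        refine sum_congr rfl fun p _ => ?_
        ring
      · intro b hb
        refine L1_sum M P i hi _ (fun a => ent E a b) fun a ha => ?_
        simp only [bd, Matrix.of_apply, if_pos ha, if_pos hb]
    · rw [L1_last M P j hj, L1_sum M P i hi _ (cf g)]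
      · simp only [bd, Matrix.of_apply, if_pos hi, if_neg hj, cf]
        rw [PowerSeries.coeff_mul]
      · intro a ha
        simp only [bd, Matrix.of_apply, if_pos ha, if_neg hj]
  · simp only [L1_last M P i hi]
    by_cases hj : (j : ℕ) < 2 * M + 1
    · rw [L1_sum M P j hj _ (fun b => - cf g b)]
      · simp only [bd, Matrix.of_apply, if_neg hi, if_pos hj, cf]
        rw [PowerSeries.coeff_mul, ← sum_neg_distrib]
        refine sum_congr rfl fun s _ => ?_
        ring
      · intro b hb
        simp only [bd, Matrix.of_apply, if_neg hi, if_pos hb]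
    · rw [L1_last M P j hj]
      simp only [bd, Matrix.of_apply, if_neg hi, if_neg hj]

/-- the shear -/
noncomputable def L2 (M : ℕ) (h : S1) : Matrix (Fin (2 * (M + 1))) (Fin (2 * (M + 1))) ℝ :=
  Matrix.of fun i a => (if a = i then 1 else 0) +
    (if (i : ℕ) < 2 * M + 1 ∧ (a : ℕ) = 2 * M + 1 then cf h i else 0)

theorem det_L2 (M : ℕ) (h : S1) : (L2 M h).det = 1 := by
  rw [Matrix.det_of_upperTriangular]
  · refine prod_eq_one fun i _ => ?_
    simp only [L2, Matrix.of_apply, if_true]
    rw [if_neg (by omega), add_zero]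
  · intro i j hij
    have hij' : (j : ℕ) < i := by simpa using hij
    have hi := i.2
    simp only [L2, Matrix.of_apply]
    rw [if_neg (by intro hh; rw [hh] at hij'; exact lt_irrefl _ hij'), if_neg (by omega), add_zero]

/-- the last index -/
def la (M : ℕ) : Fin (2 * (M + 1)) := ⟨2 * M + 1, by omega⟩

theorem L2_sum (M : ℕ) (h : S1) (i : Fin (2 * (M + 1))) (G : Fin (2 * (M + 1)) → ℝ) :
    ∑ a, L2 M h i a * G a = G i + (if (i : ℕ) < 2 * M + 1 then cf h i else 0) * G (la M) := by
  simp only [L2, Matrix.of_apply, add_mul, sum_add_distrib, ite_mul, one_mul, zero_mul, sum_ite_eq',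
    mem_univ, if_true]
  congr 1
  by_cases hi : (i : ℕ) < 2 * M + 1
  · simp only [hi, true_and, if_true]
    rw [sum_eq_single (la M)]
    · simp [la]
    · intro b _ hb
      rw [if_neg]
      intro hh
      exact hb (Fin.ext hh)
    · intro hh; exact absurd (mem_univ _) hh
  · simp [hi]

theorem bd_shear (M : ℕ) (E : S2) (g h : S1) :
    pf (bd M (ent (E + (ix g * iy h - ix h * iy g))) (cf g)) = pf (bd M (ent E) (cf g)) := by
  have h0 : pf (bd M (ent E) (cf g)) = (L2 M h).det * pf (bd M (ent E) (cf g)) := by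
    rw [det_L2, one_mul]
  rw [h0, ← pf_congr]
  congr 1
  ext i j
  have hmul : (L2 M h * bd M (ent E) (cf g) * (L2 M h).transpose) i j =
      ∑ b, L2 M h j b * ∑ a, L2 M h i a * bd M (ent E) (cf g) a b := by
    rw [Matrix.mul_apply]
    refine sum_congr rfl fun b _ => ?_
    rw [Matrix.mul_apply, Matrix.transpose_apply, mul_comm]
  rw [hmul]
  simp only [L2_sum]
  have hla : ¬ ((la M : Fin (2 * (M + 1))) : ℕ) < 2 * M + 1 := by simp [la]
  have hE : ∀ x y : ℕ, ent (E + (ix g * iy h - ix h * iy g)) x y =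
      ent E x y + (cf g x * cf h y - cf h x * cf g y) := by
    intro x y
    rw [ent_add, ent_sub, ent_prod, ent_prod]
    rfl
  by_cases hi : (i : ℕ) < 2 * M + 1
  · by_cases hj : (j : ℕ) < 2 * M + 1
    · simp only [bd, Matrix.of_apply, if_pos hi, if_pos hj, if_neg hla, hE]
      ring
    · simp only [bd, Matrix.of_apply, if_pos hi, if_neg hj, if_neg hla]
      ring
  · by_cases hj : (j : ℕ) < 2 * M + 1
    · simp only [bd, Matrix.of_apply, if_neg hi, if_pos hj, if_neg hla]
      ring
    · simp only [bd, Matrix.of_apply, if_neg hi, if_neg hj]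
      ring

end Pool.Agent.X287.BP.Bord
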