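import Mathlib

/-! Common definitions for MP_32607b_nt. -/

namespace Pool.Agent.X287.BP

/-- the sum of the `e`-th powers of the binomial coefficients `binom h a`, `0 ≤ h < n` -/
def S (a e n : ℕ) : ℕ := ∑ h ∈ Finset.range n, (h.choose a) ^ e

/-- the prefactor -/
def Cc (a e : ℕ) : ℕ := (a * e + 1).factorial / a.factorial ^ e

end Pool.Agent.X287.BP
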