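import Mathlib

open Filter Topology

namespace Pool.Agent.X287.BP.Growth

theorem growth (a : ℕ → ℝ) (C : ℝ) (hC : 1 ≤ C) (h1 : ∀ n, (2 : ℝ) ^ (n ^ 2) ≤ C ^ n * a n)
    (h2 : ∀ n, a n ≤ C ^ n * 2 ^ (n ^ 2)) :
    Tendsto (fun n : ℕ => (a n) ^ ((2 : ℝ) / (2 * n) ^ 2)) atTop (nhds (√2)) := by
  have hC0 : 0 < C := by linarith
  have hapos : ∀ n, 0 < a n := by
    intro n
    have h3 : (0 : ℝ) < C ^ n := by positivity
    have h4 : (0 : ℝ) < C ^ n * a n := lt_of_lt_of_le (by positivity) (h1 n)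
    exact (mul_pos_iff_of_pos_left h3).1 h4
  -- logarithm
  have hlog : ∀ n : ℕ, |Real.log (a n) - (n : ℝ) ^ 2 * Real.log 2| ≤ n * Real.log C := by
    intro n
    have h3 := Real.log_le_log (by positivity) (h1 n)
    have h4 := Real.log_le_log (hapos n) (h2 n)
    rw [Real.log_mul (by positivity) (hapos n).ne', Real.log_pow, Real.log_pow] at h3
    rw [Real.log_mul (by positivity) (by positivity), Real.log_pow, Real.log_pow] at h4
    push_cast at h3 h4
    rw [abs_le]
    constructor <;> linarith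
  have hlim : Tendsto (fun n : ℕ => Real.log (a n) / (2 * (n : ℝ) ^ 2)) atTop
      (nhds (Real.log 2 / 2)) := by
    have h5 : Tendsto (fun n : ℕ => Real.log C / 2 * (1 / (n : ℝ))) atTop (nhds 0) := by
      have := (tendsto_one_div_atTop_nhds_zero_nat (𝕜 := ℝ)).const_mul (Real.log C / 2)
      simpa using this
    rw [tendsto_iff_dist_tendsto_zero]
    refine squeeze_zero' (Eventually.of_forall fun _ => dist_nonneg) ?_ h5
    filter_upwards [eventually_gt_atTop 0] with n hn
    have hn' : (0 : ℝ) < n := by exact_mod_cast hn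
    rw [Real.dist_eq]
    have h6 : Real.log (a n) / (2 * (n : ℝ) ^ 2) - Real.log 2 / 2 =
        (Real.log (a n) - (n : ℝ) ^ 2 * Real.log 2) / (2 * (n : ℝ) ^ 2) := by
      field_simp
    rw [h6, abs_div, abs_of_pos (by positivity : (0 : ℝ) < 2 * (n : ℝ) ^ 2),
      div_le_iff₀ (by positivity)]
    refine (hlog n).trans (le_of_eq ?_)
    field_simp
  have h7 : ∀ᶠ n : ℕ in atTop, Real.exp (Real.log (a n) / (2 * (n : ℝ) ^ 2)) =
      (a n) ^ ((2 : ℝ) / (2 * n) ^ 2) := by
    filter_upwards [eventually_gt_atTop 0] with n hn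
    have hn' : (0 : ℝ) < n := by exact_mod_cast hn
    rw [Real.rpow_def_of_pos (hapos n)]
    congr 1
    field_simp
    try ring
  have h8 : Real.exp (Real.log 2 / 2) = √2 := by
    rw [Real.sqrt_eq_rpow, Real.rpow_def_of_pos (by norm_num)]
    congr 1
    ring
  rw [← h8]
  exact ((Real.continuous_exp.tendsto _).comp hlim).congr' h7

end Pool.Agent.X287.BP.Growth
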