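import Mathlib

open Filter Topology

namespace Pool.Agent.X287.BP.Growth2

theorem growth2 (a : ℕ → ℝ) (C : ℝ) (hC : 1 ≤ C) (h1 : ∀ n, (2 : ℝ) ^ (n ^ 2) ≤ C ^ n * a n)
    (h2 : ∀ n, a n ≤ C ^ n * ((2 * n).factorial : ℝ) * 2 ^ (n ^ 2)) :
    Tendsto (fun n : ℕ => (a n) ^ ((2 : ℝ) / (2 * n - 1) ^ 2)) atTop (nhds (√2)) := by
  have hC0 : 0 < C := by linarith
  have hapos : ∀ n, 0 < a n := by
    intro n
    have h3 : (0 : ℝ) < C ^ n := by positivity
    have h4 : (0 : ℝ) < C ^ n * a n := lt_of_lt_of_le (by positivity) (h1 n)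
    exact (mul_pos_iff_of_pos_left h3).1 h4
  have hlogC : 0 ≤ Real.log C := Real.log_nonneg hC
  have hlog : ∀ n : ℕ, 1 ≤ n → |Real.log (a n) - (n : ℝ) ^ 2 * Real.log 2| ≤
      n * Real.log C + 2 * n * Real.log (2 * n) := by
    intro n hn
    have hn' : (1 : ℝ) ≤ n := by exact_mod_cast hn
    have h3 := Real.log_le_log (by positivity) (h1 n)
    have h4 := Real.log_le_log (hapos n) (h2 n)
    rw [Real.log_mul (by positivity) (hapos n).ne', Real.log_pow, Real.log_pow] at h3
    rw [Real.log_mul (by positivity) (by positivity), Real.log_mul (by positivity) (by positivity),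
      Real.log_pow, Real.log_pow] at h4
    push_cast at h3 h4
    have h5 : Real.log ((2 * n).factorial : ℝ) ≤ 2 * n * Real.log (2 * n) := by
      have h6 : ((2 * n).factorial : ℝ) ≤ (2 * n : ℝ) ^ (2 * n) := by
        exact_mod_cast Nat.factorial_le_pow (2 * n)
      have h7 := Real.log_le_log (by positivity) h6
      rw [Real.log_pow] at h7
      push_cast at h7
      exact h7
    have h8 : 0 ≤ 2 * (n : ℝ) * Real.log (2 * n) := by
      have : 0 ≤ Real.log (2 * n) := Real.log_nonneg (by linarith)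
      positivity
    rw [abs_le]
    constructor <;> linarith
  have hlim1 : Tendsto (fun n : ℕ => Real.log (a n) / (n : ℝ) ^ 2) atTop (nhds (Real.log 2)) := by
    have h5 : Tendsto (fun n : ℕ => Real.log C * (1 / (n : ℝ)) + 2 * (Real.log (2 * n) / n)) atTop
        (nhds 0) := by
      have e1 := (tendsto_one_div_atTop_nhds_zero_nat (𝕜 := ℝ)).const_mul (Real.log C)
      have e2 : Tendsto (fun n : ℕ => Real.log (2 * n) / n) atTop (nhds 0) := by
        have e3 := Real.tendsto_pow_log_div_mul_add_atTop (1 / 2) 0 1 (by norm_num)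
        have e4 : Tendsto (fun n : ℕ => (2 * (n : ℝ))) atTop atTop :=
          tendsto_natCast_atTop_atTop.const_mul_atTop (by norm_num)
        have e5 := e3.comp e4
        refine e5.congr fun n => ?_
        simp only [Function.comp, pow_one, add_zero]
        congr 1
        ring
      have e6 := e1.add (e2.const_mul 2)
      simpa using e6
    rw [tendsto_iff_dist_tendsto_zero]
    refine squeeze_zero' (Eventually.of_forall fun _ => dist_nonneg) ?_ h5
    filter_upwards [eventually_gt_atTop 0] with n hn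
    have hn' : (0 : ℝ) < n := by exact_mod_cast hn
    rw [Real.dist_eq]
    have h6 : Real.log (a n) / (n : ℝ) ^ 2 - Real.log 2 =
        (Real.log (a n) - (n : ℝ) ^ 2 * Real.log 2) / (n : ℝ) ^ 2 := by
      field_simp
    rw [h6, abs_div, abs_of_pos (by positivity : (0 : ℝ) < (n : ℝ) ^ 2),
      div_le_iff₀ (by positivity)]
    refine (hlog n hn).trans (le_of_eq ?_)
    field_simp
  have hlim2 : Tendsto (fun n : ℕ => 2 / (2 - 1 / (n : ℝ)) ^ 2) atTop (nhds (2 / (2 - 0) ^ 2)) := by
    refine Tendsto.div tendsto_const_nhds ?_ (by norm_num)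
    exact ((tendsto_one_div_atTop_nhds_zero_nat (𝕜 := ℝ)).const_sub 2).pow 2
  have hlim : Tendsto (fun n : ℕ => Real.log (a n) / (n : ℝ) ^ 2 * (2 / (2 - 1 / (n : ℝ)) ^ 2)) atTop
      (nhds (Real.log 2 * (2 / (2 - 0) ^ 2))) := hlim1.mul hlim2
  have h7 : ∀ᶠ n : ℕ in atTop,
      Real.exp (Real.log (a n) / (n : ℝ) ^ 2 * (2 / (2 - 1 / (n : ℝ)) ^ 2)) =
      (a n) ^ ((2 : ℝ) / (2 * n - 1) ^ 2) := by
    filter_upwards [eventually_gt_atTop 0] with n hn
    have hn' : (1 : ℝ) ≤ n := by exact_mod_cast hn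
    have hn0 : (n : ℝ) ≠ 0 := by positivity
    have hne : (2 * (n : ℝ) - 1) ≠ 0 := by linarith
    rw [Real.rpow_def_of_pos (hapos n)]
    congr 1
    have h8 : (2 : ℝ) - 1 / n = (2 * n - 1) / n := by field_simp
    rw [h8]
    field_simp
  have h8 : Real.exp (Real.log 2 * (2 / (2 - 0) ^ 2)) = √2 := by
    rw [Real.sqrt_eq_rpow, Real.rpow_def_of_pos (by norm_num)]
    congr 1
    norm_num
  rw [← h8]
  exact ((Real.continuous_exp.tendsto _).comp hlim).congr' h7

end Pool.Agent.X287.BP.Growth2
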