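import Pool.Agent.X294.GR.Comp

open Finset Filter Topology PowerSeries

namespace Pool.Agent.X287.BP.Lim

open Pool.Agent.X294.GR

/-- the coefficients of a product `f(x) g(y)` -/
theorem ent_fg (f g : PowerSeries ℝ) (i j : ℕ) :
    ent (PowerSeries.map C f * C g) i j = coeff i f * coeff j g := by
  rw [ent, coeff_mul_C, coeff_map, coeff_C_mul]

theorem ent_mul_fg (F : S2) (f g : PowerSeries ℝ) (i j : ℕ) :
    ent (F * (PowerSeries.map C f * C g)) i j =
      ∑ a ∈ antidiagonal i, ∑ b ∈ antidiagonal j,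
        ent F a.1 b.1 * (coeff a.2 f * coeff b.2 g) := by
  rw [ent, coeff_mul, map_sum]
  refine sum_congr rfl fun a _ => ?_
  rw [coeff_mul]
  refine sum_congr rfl fun b _ => ?_
  rw [← ent_fg f g]
  rfl

theorem ent_tail (F : S2) (z : PowerSeries ℝ)
    (hD : ∀ i, Tendsto (fun k : ℕ => coeff i (z ^ k)) atTop (nhds 0)) (i j : ℕ) :
    Tendsto (fun k : ℕ => ent (F * (PowerSeries.map C (z ^ k) * C (z ^ k))) i j) atTop (nhds 0) := by
  simp only [ent_mul_fg]
  rw [show (0 : ℝ) = ∑ a ∈ antidiagonal i, ∑ b ∈ antidiagonal j,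
    ent F a.1 b.1 * (0 * 0) by simp]
  refine tendsto_finsetSum _ fun a _ => tendsto_finsetSum _ fun b _ => ?_
  exact ((hD a.2).mul (hD b.2)).const_mul _

theorem ent_sub (F G : S2) (i j : ℕ) : ent (F - G) i j = ent F i j - ent G i j := by
  simp [ent]

theorem ent_sum {ι : Type*} (s : Finset ι) (F : ι → S2) (i j : ℕ) :
    ent (∑ k ∈ s, F k) i j = ∑ k ∈ s, ent (F k) i j := by
  simp [ent, map_sum]

variable {m : ℕ}

/-- one wedge -/
theorem ent_wedge (z r : PowerSeries ℝ) (a : ℕ) (i j : ℕ) :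
    ent (PowerSeries.map C r * C r * (PowerSeries.map C z * C z) ^ a *
      (C z - PowerSeries.map C z)) i j =
      coeff i (z ^ a * r) * coeff j (z ^ (a + 1) * r) -
        coeff i (z ^ (a + 1) * r) * coeff j (z ^ a * r) := by
  rw [← ent_fg, ← ent_fg, ← ent_sub]
  congr 1
  simp only [map_mul, map_pow]
  ring

theorem lim1 (V : ℕ → Fin (2 * m) → ℝ) (z r : PowerSeries ℝ)
    (hD : ∀ i, Tendsto (fun k : ℕ => coeff i (z ^ k)) atTop (nhds 0)) (F : S2)
    (hF : (1 - (PowerSeries.map C z) ^ 2 * (C z) ^ 2) * F =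
      PowerSeries.map C r * C r * (C z - PowerSeries.map C z))
    (hV : ∀ k i, V k i = coeff (i : ℕ) (z ^ k * r)) (i j : Fin (2 * m)) :
    Tendsto (fun K => Mx V K 1 i j) atTop (nhds (ent F i j)) := by
  have h1 : ∀ K, Mx V K 1 i j = ent F i j -
      ent (F * (PowerSeries.map C (z ^ (2 * K)) * C (z ^ (2 * K)))) i j := by
    intro K
    have h2 : Mx V K 1 i j = ∑ k ∈ range K, ent (PowerSeries.map C r * C r *
      (PowerSeries.map C z * C z) ^ (2 * k) * (C z - PowerSeries.map C z)) i j := by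
      rw [Mx, Matrix.of_apply, Fintype.sum_prod_type, ← Fin.sum_univ_eq_sum_range (fun k =>
        ent (PowerSeries.map C r * C r *
      (PowerSeries.map C z * C z) ^ (2 * k) * (C z - PowerSeries.map C z)) i j)]
      refine sum_congr rfl fun k _ => ?_
      rw [Fin.sum_univ_one, ent_wedge]
      simp only [hV, al, be, Fin.val_zero]
      simp
    rw [h2, ← ent_sum, ← ent_sub]
    congr 1
    have h3 : ∑ k ∈ range K, PowerSeries.map C r * C r *
        (PowerSeries.map C z * C z) ^ (2 * k) * (C z - PowerSeries.map C z) =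
        (∑ k ∈ range K, ((PowerSeries.map C z) ^ 2 * (C z) ^ 2) ^ k) *
          (PowerSeries.map C r * C r * (C z - PowerSeries.map C z)) := by
      rw [sum_mul]
      refine sum_congr rfl fun k _ => ?_
      rw [pow_mul, mul_pow]
      ring
    rw [h3, ← hF, ← mul_assoc, mul_comm (∑ k ∈ range K, _), mul_neg_geom_sum]
    simp only [map_pow, pow_mul]
    ring
  simp only [h1]
  have h4 := (ent_tail F z hD i j).comp (tendsto_id.const_mul_atTop' (by norm_num : 0 < 2))
  have h5 := h4.const_sub (ent F (i : ℕ) j)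
  simpa using h5

theorem lim2 (V : ℕ → Fin (2 * m) → ℝ) (z r : PowerSeries ℝ)
    (hD : ∀ i, Tendsto (fun k : ℕ => coeff i (z ^ k)) atTop (nhds 0)) (G : S2)
    (hG : (1 - PowerSeries.map C z * C z) * G =
      PowerSeries.map C r * C r * (C z - PowerSeries.map C z))
    (hV : ∀ k i, V k i = coeff (i : ℕ) (z ^ k * r)) (i j : Fin (2 * m)) :
    Tendsto (fun K => Mx V K 2 i j) atTop (nhds (ent G i j)) := by
  have h1 : ∀ K, Mx V K 2 i j = ent G i j -
      ent (G * (PowerSeries.map C (z ^ (2 * K)) * C (z ^ (2 * K)))) i j := by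
    intro K
    have h2 : Mx V K 2 i j = ∑ k ∈ range K, ent (PowerSeries.map C r * C r *
      (PowerSeries.map C z * C z) ^ (2 * k) * (C z - PowerSeries.map C z) +
      PowerSeries.map C r * C r *
      (PowerSeries.map C z * C z) ^ (2 * k + 1) * (C z - PowerSeries.map C z)) i j := by
      rw [Mx, Matrix.of_apply, Fintype.sum_prod_type, ← Fin.sum_univ_eq_sum_range (fun k =>
        ent (PowerSeries.map C r * C r *
      (PowerSeries.map C z * C z) ^ (2 * k) * (C z - PowerSeries.map C z) +
      PowerSeries.map C r * C r *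
      (PowerSeries.map C z * C z) ^ (2 * k + 1) * (C z - PowerSeries.map C z)) i j)]
      refine sum_congr rfl fun k _ => ?_
      have hadd : ∀ A B : S2, ent (A + B) (i : ℕ) j = ent A i j + ent B i j := fun A B => by
        simp [ent]
      rw [Fin.sum_univ_two, hadd, ent_wedge, ent_wedge]
      simp only [hV, al, be, Fin.val_zero, Fin.val_one]
      simp
    rw [h2, ← ent_sum, ← ent_sub]
    congr 1
    have h3 : ∀ K, ∑ k ∈ range K, (PowerSeries.map C r * C r *
        (PowerSeries.map C z * C z) ^ (2 * k) * (C z - PowerSeries.map C z) +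
        PowerSeries.map C r * C r *
        (PowerSeries.map C z * C z) ^ (2 * k + 1) * (C z - PowerSeries.map C z)) =
        (∑ k ∈ range (2 * K), (PowerSeries.map C z * C z) ^ k) *
          (PowerSeries.map C r * C r * (C z - PowerSeries.map C z)) := by
      intro K
      induction K with
      | zero => simp
      | succ K ih =>
        rw [sum_range_succ, ih, show 2 * (K + 1) = 2 * K + 1 + 1 by ring, sum_range_succ,
          sum_range_succ]
        ring
    rw [h3, ← hG, ← mul_assoc, mul_comm (∑ k ∈ range (2 * K), _), mul_neg_geom_sum]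
    simp only [map_pow, mul_pow]
    ring
  simp only [h1]
  have h4 := (ent_tail G z hD i j).comp (tendsto_id.const_mul_atTop' (by norm_num : 0 < 2))
  have h5 := h4.const_sub (ent G (i : ℕ) j)
  simpa using h5

theorem pf_lim1 (V : ℕ → Fin (2 * m) → ℝ) (z r : PowerSeries ℝ)
    (hD : ∀ i, Tendsto (fun k : ℕ => coeff i (z ^ k)) atTop (nhds 0)) (F : S2)
    (hF : (1 - (PowerSeries.map C z) ^ 2 * (C z) ^ 2) * F =
      PowerSeries.map C r * C r * (C z - PowerSeries.map C z))
    (hV : ∀ k i, V k i = coeff (i : ℕ) (z ^ k * r)) :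
    Tendsto (fun K => pf (Mx V K 1)) atTop (nhds (pf (Matrix.of fun i j : Fin (2 * m) => ent F i j))) := by
  refine (pf_cont.tendsto _).comp ?_
  refine tendsto_pi_nhds.2 fun i => tendsto_pi_nhds.2 fun j => ?_
  exact lim1 V z r hD F hF hV i j

theorem pf_lim2 (V : ℕ → Fin (2 * m) → ℝ) (z r : PowerSeries ℝ)
    (hD : ∀ i, Tendsto (fun k : ℕ => coeff i (z ^ k)) atTop (nhds 0)) (G : S2)
    (hG : (1 - PowerSeries.map C z * C z) * G =
      PowerSeries.map C r * C r * (C z - PowerSeries.map C z))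
    (hV : ∀ k i, V k i = coeff (i : ℕ) (z ^ k * r)) :
    Tendsto (fun K => pf (Mx V K 2)) atTop (nhds (pf (Matrix.of fun i j : Fin (2 * m) => ent G i j))) := by
  refine (pf_cont.tendsto _).comp ?_
  refine tendsto_pi_nhds.2 fun i => tendsto_pi_nhds.2 fun j => ?_
  exact lim2 V z r hD G hG hV i j

end Pool.Agent.X287.BP.Lim
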