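import Mathlib

open Finset PowerSeries

namespace Pool.Agent.X287.BP.Minors

theorem z_eq (q : ℝ) (r : PowerSeries ℝ) (hr : (1 - C q * X) * r = 1) :
    (X + C q) * r = C (1 + q ^ 2) * (X * r) + C q := by
  have h : (X + C q : PowerSeries ℝ) = C q * (1 - C q * X) + C (1 + q ^ 2) * X := by
    simp only [map_add, map_one, map_pow]
    ring
  calc (X + C q) * r = (C q * (1 - C q * X) + C (1 + q ^ 2) * X) * r := by rw [← h]
    _ = C q * ((1 - C q * X) * r) + C (1 + q ^ 2) * (X * r) := by ring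
    _ = _ := by rw [hr]; ring

theorem coeff_zero_r (q : ℝ) (r : PowerSeries ℝ) (hr : (1 - C q * X) * r = 1) :
    constantCoeff r = 1 := by
  have h := congrArg (constantCoeff (R := ℝ)) hr
  simpa using h

theorem coeff_v (q : ℝ) (hq : 0 < q) (r : PowerSeries ℝ) (hr : (1 - C q * X) * r = 1) (N i k : ℕ)
    (hi : i < N) :
    coeff i (((X + C q) * r) ^ k * r) =
      ∑ m ∈ range N, (((1 + q ^ 2) / q) ^ m * coeff i (X ^ m * r ^ (m + 1))) *
        (q ^ k * (k.choose m : ℝ)) := by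
  rw [z_eq q r hr, add_pow, sum_mul, map_sum]
  have h1 : ∀ m ∈ range (k + 1), coeff i ((C (1 + q ^ 2) * (X * r)) ^ m * (C q) ^ (k - m) *
      ((k.choose m : ℕ) : PowerSeries ℝ) * r) =
      (((1 + q ^ 2) / q) ^ m * coeff i (X ^ m * r ^ (m + 1))) * (q ^ k * (k.choose m : ℝ)) := by
    intro m hm
    have hm' : m ≤ k := Nat.lt_succ_iff.1 (mem_range.1 hm)
    have h2 : (C (1 + q ^ 2) * (X * r)) ^ m * (C q) ^ (k - m) *
      ((k.choose m : ℕ) : PowerSeries ℝ) * r =
      C ((1 + q ^ 2) ^ m * q ^ (k - m) * (k.choose m : ℝ)) * (X ^ m * r ^ (m + 1)) := by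
      simp only [map_mul, map_pow, map_natCast, mul_pow, pow_succ]
      ring
    rw [h2, coeff_C_mul]
    have h3 : q ^ k = q ^ (k - m) * q ^ m := by rw [← pow_add]; congr 1; omega
    rw [h3, div_pow]
    field_simp
  rw [sum_congr rfl h1]
  have h4 : ∑ m ∈ range (k + 1), (((1 + q ^ 2) / q) ^ m * coeff i (X ^ m * r ^ (m + 1))) *
      (q ^ k * (k.choose m : ℝ)) = ∑ m ∈ range (k + 1 + N), (((1 + q ^ 2) / q) ^ m *
        coeff i (X ^ m * r ^ (m + 1))) * (q ^ k * (k.choose m : ℝ)) := by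
    refine sum_subset (range_mono (by omega)) fun m _ hm => ?_
    rw [Nat.choose_eq_zero_of_lt (by simpa using hm)]
    simp
  have h5 : ∑ m ∈ range N, (((1 + q ^ 2) / q) ^ m * coeff i (X ^ m * r ^ (m + 1))) *
      (q ^ k * (k.choose m : ℝ)) = ∑ m ∈ range (k + 1 + N), (((1 + q ^ 2) / q) ^ m *
        coeff i (X ^ m * r ^ (m + 1))) * (q ^ k * (k.choose m : ℝ)) := by
    refine sum_subset (range_mono (by omega)) fun m _ hm => ?_
    have hm' : N ≤ m := by simpa using hm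
    rw [coeff_X_pow_mul', if_neg (by omega)]
    simp
  rw [h4, h5]

theorem minors (N : ℕ) (q : ℝ) (hq : 0 < q) (r : PowerSeries ℝ) (hr : (1 - C q * X) * r = 1) :
    ∃ c : ℝ, 0 < c ∧ ∀ f : Fin N → ℕ,
      (Matrix.of fun (i j : Fin N) => coeff (i : ℕ) (((X + C q) * r) ^ (f j) * r)).det =
        c * q ^ (∑ j, f j) * ∏ i, ∏ j ∈ Finset.Ioi i, ((f j : ℝ) - f i) := by
  set L : Matrix (Fin N) (Fin N) ℝ := Matrix.of fun i m =>
    ((1 + q ^ 2) / q) ^ (m : ℕ) * coeff (i : ℕ) (X ^ (m : ℕ) * r ^ ((m : ℕ) + 1)) with hL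
  have hLdet : L.det = ∏ i : Fin N, ((1 + q ^ 2) / q) ^ (i : ℕ) := by
    rw [Matrix.det_of_lowerTriangular L]
    · refine prod_congr rfl fun i _ => ?_
      rw [hL, Matrix.of_apply, coeff_X_pow_mul', if_pos le_rfl, Nat.sub_self,
        coeff_zero_eq_constantCoeff_apply, map_pow, coeff_zero_r q r hr]
      simp
    · intro i j hij
      have hij' : i < j := hij
      rw [hL, Matrix.of_apply, coeff_X_pow_mul', if_neg (by
        have : (i : ℕ) < j := hij'
        omega)]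
      simp
  refine ⟨(∏ i : Fin N, ((1 + q ^ 2) / q) ^ (i : ℕ)) * (∏ i : Fin N, ((i : ℕ).factorial : ℝ))⁻¹,
    by positivity, fun f => ?_⟩
  have hM : (Matrix.of fun (i j : Fin N) => coeff (i : ℕ) (((X + C q) * r) ^ (f j) * r)) =
      L * Matrix.of fun (m j : Fin N) => q ^ (f j) * ((f j).choose (m : ℕ) : ℝ) := by
    ext i j
    rw [Matrix.mul_apply, Matrix.of_apply, coeff_v q hq r hr N i (f j) i.2]
    rw [← Fin.sum_univ_eq_sum_range (fun m => (((1 + q ^ 2) / q) ^ m *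
      coeff (i : ℕ) (X ^ m * r ^ (m + 1))) * (q ^ (f j) * ((f j).choose m : ℝ)))]
    rfl
  have hC : (∏ i : Fin N, ((i : ℕ).factorial : ℝ)) *
      (Matrix.of fun (m j : Fin N) => ((f j).choose (m : ℕ) : ℝ)).det =
      ∏ i, ∏ j ∈ Finset.Ioi i, ((f j : ℝ) - f i) := by
    rw [← Matrix.det_vandermonde (fun j : Fin N => (f j : ℝ)),
      Matrix.det_eval_matrixOfPolynomials_eq_det_vandermonde (fun i => (f i : ℝ))
        (fun i => descPochhammer ℝ i) (fun i => descPochhammer_natDegree ℝ i)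
        (fun i => monic_descPochhammer ℝ i), ← Matrix.det_transpose (Matrix.of fun (i j : Fin N) =>
          (descPochhammer ℝ (j : ℕ)).eval (f i : ℝ)), ← Matrix.det_mul_column]
    congr 1
    ext i j
    simp only [Matrix.of_apply, Matrix.transpose_apply]
    rw [descPochhammer_eval_eq_descFactorial, Nat.descFactorial_eq_factorial_mul_choose]
    push_cast; rfl
  have hrow : (Matrix.of fun (m j : Fin N) => q ^ (f j) * ((f j).choose (m : ℕ) : ℝ)).det =
      (∏ j, q ^ f j) * (Matrix.of fun (m j : Fin N) => ((f j).choose (m : ℕ) : ℝ)).det :=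
    Matrix.det_mul_row (fun j : Fin N => q ^ f j)
      (Matrix.of fun (m j : Fin N) => ((f j).choose (m : ℕ) : ℝ))
  rw [hM, Matrix.det_mul, hLdet, hrow, ← hC, ← prod_pow_eq_pow_sum]
  have hne : (∏ i : Fin N, ((i : ℕ).factorial : ℝ)) ≠ 0 := by positivity
  field_simp

end Pool.Agent.X287.BP.Minors
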