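import Pool.Agent.X287.BP.Stm

open Polynomial Finset

namespace Pool.Agent.X287.BP

/-- summation polynomial -/
theorem exists_sum (P : ℚ[X]) : ∃ T : ℚ[X], T.natDegree ≤ P.natDegree + 1 ∧ T.eval 0 = 0 ∧
    ∀ x : ℚ, T.eval (1 + x) = T.eval x + P.eval x := by
  refine ⟨∑ i ∈ range (P.natDegree + 1), C (P.coeff i / (i + 1)) *
    (Polynomial.bernoulli (i + 1) - C (_root_.bernoulli (i + 1))), ?_, ?_, ?_⟩
  · refine natDegree_sum_le_of_forall_le _ _ fun i hi => ?_
    refine (natDegree_C_mul_le _ _).trans ?_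
    rw [natDegree_sub_C]
    rw [natDegree_le_iff_coeff_eq_zero]
    intro N hN
    rw [coeff_bernoulli]
    rw [if_neg]
    have := mem_range.1 hi
    omega
  · simp [eval_finsetSum]
  · intro x
    rw [eval_finsetSum, eval_finsetSum, P.eval_eq_sum_range, ← sum_add_distrib]
    refine sum_congr rfl fun i _ => ?_
    simp only [eval_mul, eval_C, eval_sub, bernoulli_eval_one_add, Nat.cast_add, Nat.cast_one,
      Nat.add_sub_cancel]
    have : (i : ℚ) + 1 ≠ 0 := by positivity
    field_simp
    ring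

/-- the binomial polynomial -/
noncomputable def B (a : ℕ) : ℚ[X] := C ((a.factorial : ℚ)⁻¹) * descPochhammer ℚ a

theorem B_eval (a h : ℕ) : (B a).eval (h : ℚ) = (h.choose a : ℚ) := by
  rw [B, eval_mul, eval_C, descPochhammer_eval_eq_descFactorial, Nat.descFactorial_eq_factorial_mul_choose]
  push_cast
  have : (a.factorial : ℚ) ≠ 0 := by positivity
  field_simp

theorem B_refl (a : ℕ) (ha : Odd a) (x : ℚ) : (B a).eval (a - 1 - x) = - (B a).eval x := by
  rw [B, eval_mul, eval_C, eval_mul, eval_C, descPochhammer_eval_eq_prod_range,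
    descPochhammer_eval_eq_prod_range, ← prod_range_reflect]
  have h1 : ∀ j ∈ range a, ((a : ℚ) - 1 - x - ((a - 1 - j : ℕ) : ℚ)) = (-1) * (x - j) := by
    intro j hj
    have := mem_range.1 hj
    have h2 : ((a - 1 - j : ℕ) : ℚ) = a - 1 - j := by
      rw [Nat.sub_sub, Nat.cast_sub (by omega)]; push_cast; ring
    rw [h2]; ring
  rw [prod_congr rfl h1, prod_mul_distrib, prod_const, card_range, ha.neg_one_pow]
  ring

theorem B_natDegree (a : ℕ) : (B a).natDegree ≤ a := by
  refine (natDegree_C_mul_le _ _).trans ?_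
  rw [descPochhammer_natDegree]

/-- the sum is a polynomial divisible by `X ^ 2` -/
theorem exists_G (a e : ℕ) (ha : Odd a) (he : Odd e) (h3 : 3 ≤ e) :
    ∃ G : ℚ[X], G.natDegree < a * e ∧ ∀ n : ℕ, (n : ℚ) ^ 2 * G.eval (n : ℚ) = (S a e n : ℚ) := by
  have ha1 : 1 ≤ a := ha.pos
  obtain ⟨T, hT1, hT0, hT⟩ := exists_sum (B a ^ e)
  have hdeg : T.natDegree ≤ a * e + 1 := by
    refine hT1.trans ?_
    have := (natDegree_pow_le (p := B a) (n := e))
    have h2 := B_natDegree a
    have h3 : e * (B a).natDegree ≤ e * a := Nat.mul_le_mul_left _ h2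
    have h4 : e * a = a * e := mul_comm _ _
    omega
  have hS : ∀ n : ℕ, T.eval (n : ℚ) = (S a e n : ℚ) := by
    intro n
    induction n with
    | zero => simpa [S] using hT0
    | succ n ih =>
      rw [Nat.cast_succ, add_comm, hT, ih, eval_pow, B_eval, S, S, sum_range_succ]
      push_cast; ring
  have hSa : S a e a = 0 := by
    rw [S]
    refine sum_eq_zero fun h hh => ?_
    rw [Nat.choose_eq_zero_of_lt (mem_range.1 hh), zero_pow (by omega)]
  -- reflection
  have hr : ∀ n : ℕ, T.eval ((a : ℚ) - n) = T.eval (n : ℚ) := by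
    intro n
    induction n with
    | zero =>
      rw [Nat.cast_zero, sub_zero, hS a, hSa, hT0]; simp
    | succ n ih =>
      have h1 := hT ((a : ℚ) - 1 - n)
      rw [show (1 : ℚ) + ((a : ℚ) - 1 - n) = a - n by ring, ih, eval_pow, B_refl a ha,
        he.neg_pow] at h1
      have h2 := hT (n : ℚ)
      rw [eval_pow] at h2
      rw [Nat.cast_succ, show (a : ℚ) - (n + 1) = a - 1 - n by ring, add_comm (n : ℚ) 1, h2]
      linarith
  have hrp : T.comp (C (a : ℚ) - X) = T := by
    refine Polynomial.eq_of_infinite_eval_eq _ _ ?_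
    refine (Set.infinite_range_of_injective (f := fun n : ℕ => (n : ℚ)) Nat.cast_injective).mono ?_
    rintro _ ⟨n, rfl⟩
    simp only [Set.mem_setOf_eq, eval_comp, eval_sub, eval_C, eval_X]
    exact hr n
  have hTp : T.comp (1 + X) = T + B a ^ e := by
    refine Polynomial.funext fun x => ?_
    simp only [eval_comp, eval_add, eval_one, eval_X]
    exact hT x
  -- derivative
  have hd0 : ∀ h : ℕ, h < a → (derivative (B a ^ e)).eval (h : ℚ) = 0 := by
    intro h hh
    rw [derivative_pow, eval_mul, eval_mul, eval_pow, B_eval, Nat.choose_eq_zero_of_lt hh,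
      Nat.cast_zero, zero_pow (by omega)]
    ring
  have hd1 : ∀ h : ℕ, h ≤ a → (derivative T).eval (h : ℚ) = (derivative T).eval 0 := by
    intro h
    induction h with
    | zero => intro _; simp
    | succ h ih =>
      intro hh
      have h1 := congrArg (fun Q : ℚ[X] => (derivative Q).eval (h : ℚ)) hTp
      simp only [derivative_comp, derivative_add, derivative_one, derivative_X, zero_add, one_mul,
        eval_add, eval_mul, eval_comp, eval_one, eval_X] at h1
      rw [hd0 h (by omega), ih (by omega), add_zero] at h1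
      rw [Nat.cast_succ, add_comm]
      simpa using h1
  have hd2 : (derivative T).eval 0 = 0 := by
    have h1 := congrArg (fun Q : ℚ[X] => (derivative Q).eval (0 : ℚ)) hrp
    simp only [derivative_comp, derivative_sub, derivative_C, derivative_X, zero_sub,
      eval_mul, eval_comp, eval_sub, eval_C, eval_X, sub_zero, eval_neg, eval_one] at h1
    have h2 := hd1 a le_rfl
    rw [h2] at h1
    linarith
  -- divisibility
  have hdvd : X ^ 2 ∣ T := by
    rw [X_pow_dvd_iff]
    intro d hd
    interval_cases d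
    · rw [coeff_zero_eq_eval_zero, hT0]
    · have h1 := coeff_derivative T 0
      rw [coeff_zero_eq_eval_zero, hd2] at h1
      simpa using h1.symm
  obtain ⟨G, hG⟩ := hdvd
  refine ⟨G, ?_, fun n => ?_⟩
  · by_cases hG0 : G = 0
    · rw [hG0, natDegree_zero]; positivity
    · have h1 : T.natDegree = 2 + G.natDegree := by
        rw [hG, natDegree_X_pow_mul _ hG0, add_comm]
      omega
  · rw [← hS, hG]; simp

/-- integrality propagates -/
theorem prop_int (G : ℚ[X]) (D : ℕ) (hG : G.natDegree < D)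
    (h : ∀ n : ℕ, 1 ≤ n → n ≤ D → ∃ z : ℤ, G.eval (n : ℚ) = z) :
    ∀ n : ℕ, 1 ≤ n → ∃ z : ℤ, G.eval (n : ℚ) = z := by
  intro n
  induction n using Nat.strong_induction_on with
  | _ n ih =>
    intro hn
    by_cases hnD : n ≤ D
    · exact h n hn hnD
    · push Not at hnD
      have h1 := Polynomial.fwdDiff_iter_eq_zero_of_degree_lt hG
      have h2 := congrFun h1 ((n - D : ℕ) : ℚ)
      rw [fwdDiff_iter_eq_sum_shift, sum_range_succ] at h2
      have h3 : ∀ k ∈ range D, ∃ z : ℤ, ((-1 : ℤ) ^ (D - k) * (D.choose k : ℤ)) •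
          G.eval (((n - D : ℕ) : ℚ) + k • (1 : ℚ)) = z := by
        intro k hk
        have hk' := mem_range.1 hk
        obtain ⟨z, hz⟩ := ih (n - D + k) (by omega) (by omega)
        refine ⟨(-1 : ℤ) ^ (D - k) * (D.choose k : ℤ) * z, ?_⟩
        rw [show ((n - D : ℕ) : ℚ) + k • (1 : ℚ) = ((n - D + k : ℕ) : ℚ) by
          rw [nsmul_eq_mul, mul_one]; push_cast; ring, hz, zsmul_eq_mul]
        push_cast; ring
      choose! z hz using h3
      rw [sum_congr rfl hz] at h2
      simp only [Nat.sub_self, pow_zero, Nat.choose_self, Nat.cast_one, mul_one, one_smul,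
        nsmul_eq_mul, Pi.zero_apply] at h2
      refine ⟨- ∑ k ∈ range D, z k, ?_⟩
      have h4 : ((n - D : ℕ) : ℚ) + (D : ℚ) = n := by
        rw [Nat.cast_sub hnD.le]; ring
      rw [h4] at h2
      push_cast
      linarith

theorem t_P1 : P1 := by
  intro a e c ha he h3 h
  obtain ⟨G, hG, hS⟩ := exists_G a e ha he h3
  have h1 : ∀ n : ℕ, 1 ≤ n → ∃ z : ℤ, (C (c : ℚ) * G).eval (n : ℚ) = z := by
    refine prop_int _ (a * e) ?_ ?_
    · exact lt_of_le_of_lt (natDegree_C_mul_le _ _) hG
    · intro n hn hn2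
      obtain ⟨k, hk⟩ := h n hn hn2
      refine ⟨k, ?_⟩
      rw [eval_mul, eval_C]
      have h4 := hS n
      have h5 : (c : ℚ) * (S a e n : ℚ) = (n : ℚ) ^ 2 * k := by exact_mod_cast hk
      have h6 : (n : ℚ) ^ 2 ≠ 0 := by positivity
      apply mul_left_cancel₀ h6
      rw [Int.cast_natCast, ← h5, ← h4]; ring
  intro n
  rcases Nat.eq_zero_or_pos n with rfl | hn
  · simp [S]
  · obtain ⟨z, hz⟩ := h1 n hn
    rw [eval_mul, eval_C] at hz
    have h4 := hS n
    have h5 : ((c * S a e n : ℕ) : ℤ) = ((n ^ 2 : ℕ) : ℤ) * z := by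
      have : ((c : ℚ) * (S a e n : ℚ)) = (n : ℚ) ^ 2 * z := by
        rw [← h4, ← hz]; ring
      exact_mod_cast this
    exact Int.natCast_dvd_natCast.1 ⟨z, h5⟩

end Pool.Agent.X287.BP
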