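import Pool.Agent.X287.BP.Stm

open Nat

namespace Pool.Agent.X287.BP

theorem v_mul_le (p m k : ℕ) [hp : Fact p.Prime] (h : m ∣ k) (hk : k ≠ 0) :
    padicValNat p m ≤ padicValNat p k := by
  rw [← padicValNat_dvd_iff_le hk]
  exact pow_padicValNat_dvd.trans h

theorem v_mono (p m k : ℕ) [hp : Fact p.Prime] (h : m ≤ k) :
    padicValNat p m.factorial ≤ padicValNat p k.factorial :=
  v_mul_le p _ _ (Nat.factorial_dvd_factorial h) (Nat.factorial_ne_zero _)

theorem v_add (p m k : ℕ) [hp : Fact p.Prime] :
    padicValNat p m.factorial + padicValNat p k.factorial ≤ padicValNat p (m + k).factorial := by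
  rw [← padicValNat.mul (Nat.factorial_ne_zero _) (Nat.factorial_ne_zero _)]
  exact v_mul_le p _ _ (Nat.factorial_mul_factorial_dvd_factorial_add m k) (Nat.factorial_ne_zero _)

theorem v_smul (p e : ℕ) [hp : Fact p.Prime] (c : ℕ) :
    c * padicValNat p e.factorial ≤ padicValNat p (c * e).factorial := by
  induction c with
  | zero => simp
  | succ c ih =>
    rw [Nat.succ_mul, Nat.succ_mul]
    exact (Nat.add_le_add_right ih _).trans (v_add p _ _)

theorem t_P4a : P4a := by
  intro p a e hp
  have : Fact p.Prime := ⟨hp⟩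
  have hp1 : 1 < p := hp.one_lt
  induction a using Nat.strong_induction_on with
  | _ a ih =>
    rcases Nat.eq_zero_or_pos a with rfl | ha
    · simp
    · have h1 : a / p < a := Nat.div_lt_self ha hp1
      have h2 := ih _ h1
      rw [Nat.digits_def' hp1 ha, List.sum_cons]
      have h3 : p * (a / p) + a % p = a := Nat.div_add_mod a p
      set a1 := a / p with ha1
      set a0 := a % p with ha0
      have ha0p : a0 < p := Nat.mod_lt _ hp.pos
      have h4 : padicValNat p a.factorial = padicValNat p a1.factorial + a1 := by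
        rw [← h3, padicValNat_factorial_mul_add _ ha0p, padicValNat_factorial_mul]
      have h5 : padicValNat p (p * (a1 * e)).factorial + padicValNat p (a0 * e).factorial
          ≤ padicValNat p (a * e).factorial := by
        have : a * e = p * (a1 * e) + a0 * e := by rw [← h3]; ring
        rw [this]
        exact v_add p _ _
      rw [padicValNat_factorial_mul] at h5
      have h6 := v_smul p e a0
      rw [h4]
      have h7 : e * (padicValNat p a1.factorial + a1) = e * padicValNat p a1.factorial + a1 * e := by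
        ring
      rw [h7, Nat.add_mul]
      omega

/-- `(a e + 1)! = C (a!)^e` -/
theorem Cc_mul (a e : ℕ) : Cc a e * a.factorial ^ e = (a * e + 1).factorial := by
  rw [Cc]
  apply Nat.div_mul_cancel
  have h1 : a.factorial ^ e ∣ (a * e).factorial := by
    have := Nat.prod_factorial_dvd_factorial_sum (Finset.range e) (fun _ => a)
    simpa [mul_comm] using this
  exact h1.trans (Nat.factorial_dvd_factorial (Nat.le_succ _))

theorem Cc_ne (a e : ℕ) : Cc a e ≠ 0 := by
  intro h
  have := Cc_mul a e
  rw [h, zero_mul] at this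
  exact (Nat.factorial_ne_zero _) this.symm

theorem v_Cc (p a e : ℕ) (hp : p.Prime) :
    (Nat.digits p a).sum * padicValNat p e.factorial + padicValNat p (a * e + 1) ≤
      padicValNat p (Cc a e) := by
  have : Fact p.Prime := ⟨hp⟩
  have h1 := congrArg (padicValNat p) (Cc_mul a e)
  rw [padicValNat.mul (Cc_ne a e) (pow_ne_zero _ (Nat.factorial_ne_zero _)), padicValNat.pow,
    Nat.factorial_succ, padicValNat.mul (by omega) (Nat.factorial_ne_zero _)] at h1
  have h2 := t_P4a p a e hp
  omega

theorem dvd_Cc (p a e k : ℕ) (hp : p.Prime) (h : k ≤ padicValNat p (Cc a e)) : p ^ k ∣ Cc a e := by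
  have : Fact p.Prime := ⟨hp⟩
  exact (padicValNat_dvd_iff_le (Cc_ne a e)).2 h

/-- the valuation of `(p^t)!` -/
theorem v_pow (p t : ℕ) [hp : Fact p.Prime] :
    padicValNat p (p ^ (t + 1)).factorial = padicValNat p (p ^ t).factorial + p ^ t := by
  rw [pow_succ', padicValNat_factorial_mul]

theorem v_mulp (p m : ℕ) [hp : Fact p.Prime] : m ≤ padicValNat p (p * m).factorial := by
  rw [padicValNat_factorial_mul]; omega

/-- digit sum one -/
theorem digits_one (p : ℕ) (hp : 1 < p) : ∀ a, (Nat.digits p a).sum = 1 → ∃ r, a = p ^ r := by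
  intro a
  induction a using Nat.strong_induction_on with
  | _ a ih =>
    intro h
    rcases Nat.eq_zero_or_pos a with rfl | ha
    · simp at h
    rw [Nat.digits_def' hp ha, List.sum_cons] at h
    have h3 : p * (a / p) + a % p = a := Nat.div_add_mod a p
    rcases Nat.eq_zero_or_pos (a % p) with h0 | h0
    · rw [h0, zero_add] at h
      obtain ⟨r, hr⟩ := ih _ (Nat.div_lt_self ha hp) h
      exact ⟨r + 1, by rw [pow_succ', ← hr]; omega⟩
    · have h1 : (Nat.digits p (a / p)).sum = 0 := by omega
      have h2 : a / p = 0 := by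
        by_contra hne
        have h5 : 0 < a / p := Nat.pos_of_ne_zero hne
        have h6 : Nat.digits p (a/p) ≠ [] := Nat.digits_ne_nil_iff_ne_zero.2 hne
        have h7 := Nat.getLast_digit_ne_zero p hne
        have h8 : (Nat.digits p (a/p)).getLast h6 ∈ Nat.digits p (a/p) := List.getLast_mem _
        have h9 := List.single_le_sum (l := Nat.digits p (a/p)) (by simp) _ h8
        omega
      refine ⟨0, ?_⟩
      rw [h2] at h3
      rw [pow_zero]
      omega

theorem digits_pos (p a : ℕ) (ha : 0 < a) : 1 ≤ (Nat.digits p a).sum := by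
  have hne : a ≠ 0 := by omega
  have h6 : Nat.digits p a ≠ [] := Nat.digits_ne_nil_iff_ne_zero.2 hne
  have h7 := Nat.getLast_digit_ne_zero p hne
  have h8 : (Nat.digits p a).getLast h6 ∈ Nat.digits p a := List.getLast_mem _
  have h9 := List.single_le_sum (l := Nat.digits p a) (by simp) _ h8
  omega

theorem v_pmul (p m : ℕ) [hp : Fact p.Prime] :
    padicValNat p (p * m).factorial = padicValNat p m.factorial + m := padicValNat_factorial_mul m

theorem F_zero (p : ℕ) : padicValNat p (p ^ 0).factorial = 0 := by simp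

theorem F_one (p : ℕ) [hp : Fact p.Prime] : padicValNat p (p ^ 1).factorial = 1 := by
  rw [v_pow, F_zero]; simp

theorem F_two (p : ℕ) [hp : Fact p.Prime] : padicValNat p (p ^ 2).factorial = 1 + p := by
  rw [v_pow, F_one]; simp

theorem F_three (p : ℕ) [hp : Fact p.Prime] :
    padicValNat p (p ^ 3).factorial = 1 + p + p ^ 2 := by
  rw [v_pow, F_two]

theorem F_big (p : ℕ) [hp : Fact p.Prime] (h3 : 3 ≤ p) (t : ℕ) (ht : 3 ≤ t) :
    4 * t ≤ padicValNat p (p ^ t).factorial := by
  induction t, ht using Nat.le_induction with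
  | base => rw [F_three]; nlinarith
  | succ t ht ih =>
    rw [v_pow]
    have h1 : 3 ^ t ≤ p ^ t := Nat.pow_le_pow_left h3 t
    have h2 : 3 ^ 3 ≤ 3 ^ t := Nat.pow_le_pow_right (by norm_num) ht
    omega

theorem F_mid (p : ℕ) [hp : Fact p.Prime] (h3 : 3 ≤ p) (t : ℕ) (ht : 2 ≤ t) :
    2 * t ≤ padicValNat p (p ^ t).factorial := by
  rcases Nat.lt_or_ge t 3 with h | h
  · have : t = 2 := by omega
    subst this
    rw [F_two]; omega
  · have := F_big p h3 t h
    omega

theorem F_even (t : ℕ) (ht : 3 ≤ t) : 4 * t + 2 ≤ 2 * padicValNat 2 (2 ^ t).factorial + 1 := by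
  have : Fact (Nat.Prime 2) := ⟨Nat.prime_two⟩
  induction t, ht using Nat.le_induction with
  | base => rw [F_three]; norm_num
  | succ t ht ih =>
    rw [v_pow]
    have h2 : 2 ^ 3 ≤ 2 ^ t := Nat.pow_le_pow_right (by norm_num) ht
    omega

end Pool.Agent.X287.BP
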