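import Pool.Agent.X287.BP.Defs

namespace Pool.Agent.X287.BP

/-- P1 (helper287) -/
def P1 : Prop := ∀ (a e c : ℕ), Odd a → Odd e → 3 ≤ e →
  (∀ n, 1 ≤ n → n ≤ a * e → n ^ 2 ∣ c * S a e n) → ∀ n, n ^ 2 ∣ c * S a e n

/-- P2 -/
def P2 : Prop := ∀ (p s a e n : ℕ), p.Prime → p ≠ 2 → Odd a → Odd e → a < p ^ s → p ^ s ∣ n →
  p ∣ S a e n

/-- P3a -/
def P3a : Prop := ∀ (p e u : ℕ), p.Prime → p ≠ 2 → Odd e → p ∣ S p e (p * u)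
/-- P3b -/
def P3b : Prop := ∀ (p e u : ℕ), p.Prime → p ≠ 2 → Odd e → p ^ 2 ∣ S p e (p ^ 2 * u)
/-- P3c -/
def P3c : Prop := ∀ (p e : ℕ), p.Prime → p ≠ 2 → Odd e → p ≤ e → e < 2 * p →
  p ^ 3 ∣ S p e (p ^ 2)

/-- P4a -/
def P4a : Prop := ∀ (p a e : ℕ), p.Prime →
  (Nat.digits p a).sum * padicValNat p e.factorial + e * padicValNat p a.factorial
    ≤ padicValNat p (a * e).factorial

/-- P4: the list of exceptional pairs -/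
def exc : List (ℕ × ℕ) := [(3,3),(3,5),(3,7),(5,5),(5,7),(7,7),(3,9),(3,11),(9,9),(9,11),(9,13),
  (9,15),(9,17),(25,25),(25,27),(25,29)]

/-- P4 -/
def P4 : Prop := ∀ (p a e v : ℕ), p.Prime → Odd a → Odd e → 3 ≤ a → a ≤ e → p ≤ a → 1 ≤ v →
  p ^ v ≤ a * e → (a, e) ∉ exc →
    p ^ (2 * v) ∣ Cc a e ∨
    (p ≠ 2 ∧ a < p ^ v ∧ p ^ (2 * v - 1) ∣ Cc a e) ∨
    (p ≠ 2 ∧ a = p ∧ e < 2 * p ∧ v = 1 ∧ p ∣ Cc a e) ∨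
    (p ≠ 2 ∧ a = p ∧ e < 2 * p ∧ v = 2 ∧ p ∣ Cc a e) ∨
    (p ≠ 2 ∧ a = p ∧ 2 * p ≤ e ∧ e < 3 * p ∧ v = 2 ∧ p ^ 2 ∣ Cc a e)

end Pool.Agent.X287.BP
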