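import Pool.Agent.X294.GR.Minor

open Finset Equiv

namespace Pool.Agent.X287.BP.Tri

open Pool.Agent.X294.GR

/-- the tridiagonal skew matrix -/
noncomputable def T (m : ℕ) (κ : ℝ) : Matrix (Fin (2 * m)) (Fin (2 * m)) ℝ :=
  Matrix.of fun i j => if (j : ℕ) = i + 1 then κ * 2 ^ (i : ℕ) else
    if (i : ℕ) = j + 1 then -(κ * 2 ^ (j : ℕ)) else 0

variable {m : ℕ}

theorem ee_val (x : Fin m × Fin 2) : ((ee m x : Fin (2 * m)) : ℕ) = 2 * x.1 + x.2 := rfl

/-- the wreath product embedding -/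
def Phi (m : ℕ) (p : Perm (Fin m) × (Fin m → Perm (Fin 2))) : Perm (Fin m × Fin 2) :=
  (Equiv.prodCongrLeft fun _ : Fin 2 => p.1) * (Equiv.prodCongrRight p.2)

theorem Phi_apply (p : Perm (Fin m) × (Fin m → Perm (Fin 2))) (i : Fin m) (j : Fin 2) :
    Phi m p (i, j) = (p.1 i, p.2 i j) := rfl

theorem Phi_sign (p : Perm (Fin m) × (Fin m → Perm (Fin 2))) :
    Perm.sign (Phi m p) = ∏ i, Perm.sign (p.2 i) := by
  rw [Phi, Perm.sign_mul, Perm.sign_prodCongrLeft, Perm.sign_prodCongrRight]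
  simp

theorem Phi_inj : Function.Injective (Phi m) := by
  rintro ⟨a, b⟩ ⟨c, d⟩ h
  have h1 : ∀ i j, (a i, b i j) = (c i, d i j) := fun i j => by
    have := congrArg (fun s : Perm (Fin m × Fin 2) => s (i, j)) h
    simpa [Phi_apply] using this
  have h2 : a = c := Equiv.ext fun i => (Prod.ext_iff.1 (h1 i 0)).1
  have h3 : b = d := funext fun i => Equiv.ext fun j => (Prod.ext_iff.1 (h1 i j)).2
  rw [h2, h3]

theorem T_zero (κ : ℝ) (a b : Fin (2 * m)) (h : T m κ a b ≠ 0) :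
    (b : ℕ) = a + 1 ∨ (a : ℕ) = b + 1 := by
  by_contra hcon
  push Not at hcon
  apply h
  rw [T, Matrix.of_apply, if_neg hcon.1, if_neg hcon.2]

theorem range_Phi (κ : ℝ) (ρ : Perm (Fin m × Fin 2))
    (h : ∀ i : Fin m, T m κ (ee m (ρ (i, 0))) (ee m (ρ (i, 1))) ≠ 0) : ρ ∈ Set.range (Phi m) := by
  -- adjacency
  have hadj : ∀ (i : Fin m) (j j' : Fin 2), j ≠ j' →
      ((ee m (ρ (i, j')) : Fin (2 * m)) : ℕ) = (ee m (ρ (i, j)) : Fin (2 * m)) + 1 ∨
      ((ee m (ρ (i, j)) : Fin (2 * m)) : ℕ) = (ee m (ρ (i, j')) : Fin (2 * m)) + 1 := by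
    intro i j j' hj
    have h1 := T_zero κ _ _ (h i)
    fin_cases j <;> fin_cases j' <;> simp at hj ⊢ <;> omega
  have hinj : ∀ x y : Fin m × Fin 2, ((ee m (ρ x) : Fin (2 * m)) : ℕ) = (ee m (ρ y) : Fin (2 * m)) →
      x = y := by
    intro x y hxy
    exact ρ.injective ((ee m).injective (Fin.ext hxy))
  have hsurj : ∀ k : ℕ, k < 2 * m → ∃ x : Fin m × Fin 2,
      ((ee m (ρ x) : Fin (2 * m)) : ℕ) = k := by
    intro k hk
    refine ⟨ρ.symm ((ee m).symm ⟨k, hk⟩), ?_⟩
    rw [Equiv.apply_symm_apply, Equiv.apply_symm_apply]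
  have hkey : ∀ k : ℕ, ∀ (i : Fin m) (j j' : Fin 2), j ≠ j' →
      ((ee m (ρ (i, j)) : Fin (2 * m)) : ℕ) = 2 * k →
      ((ee m (ρ (i, j')) : Fin (2 * m)) : ℕ) = 2 * k + 1 := by
    intro k
    induction k with
    | zero =>
      intro i j j' hj h1
      have := hadj i j j' hj
      omega
    | succ k ih =>
      intro i j j' hj h1
      rcases hadj i j j' hj with h2 | h2
      · omega
      · exfalso
        have hlt : 2 * k < 2 * m := by
          have := (ee m (ρ (i, j))).2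
          omega
        obtain ⟨⟨i1, j1⟩, h3⟩ := hsurj (2 * k) hlt
        have h4 := ih i1 j1 (if j1 = 0 then 1 else 0) (by fin_cases j1 <;> simp) h3
        have h5 := hinj (i1, if j1 = 0 then 1 else 0) (i, j') (by omega)
        have h6 : i1 = i := (Prod.ext_iff.1 h5).1
        have h7 : (if j1 = 0 then (1 : Fin 2) else 0) = j' := (Prod.ext_iff.1 h5).2
        have h8 : j1 = j := by
          have h9 : ∀ a b c : Fin 2, b ≠ c → (if a = 0 then (1 : Fin 2) else 0) = c → a = b := by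
            decide
          exact h9 j1 j j' hj h7
        rw [h6, h8, h1] at h3
        omega
  have hblock : ∀ i : Fin m, (ρ (i, 0)).1 = (ρ (i, 1)).1 := by
    intro i
    apply Fin.ext
    have h0 := (ρ (i, 0)).2.2
    have h1 := (ρ (i, 1)).2.2
    have h2 := ee_val (ρ (i, 0))
    have h3 := ee_val (ρ (i, 1))
    have h4 := hadj i 0 1 (by decide)
    have h5 := hkey ((ρ (i, 0)).1 : ℕ) i 0 1 (by decide)
    have h6 := hkey ((ρ (i, 1)).1 : ℕ) i 1 0 (by decide)
    omega
  have hfst : ∀ (i : Fin m) (j : Fin 2), (ρ (i, j)).1 = (ρ (i, 0)).1 := by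
    intro i j
    fin_cases j
    · rfl
    · exact (hblock i).symm
  have hτ : Function.Injective fun i : Fin m => (ρ (i, 0)).1 := by
    intro i i' hii
    have hii' : (ρ (i, 0)).1 = (ρ (i', 0)).1 := hii
    by_contra hne
    -- three elements in one block
    have e1 : (ρ (i, 0)).2 ≠ (ρ (i', 0)).2 := fun hh =>
      hne (Prod.ext_iff.1 (ρ.injective (Prod.ext hii' hh))).1
    have e2 : (ρ (i, 1)).2 ≠ (ρ (i', 0)).2 := fun hh =>
      hne (Prod.ext_iff.1 (ρ.injective (Prod.ext ((hfst i 1).trans hii') hh))).1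
    have e3 : (ρ (i, 0)).2 ≠ (ρ (i, 1)).2 := fun hh => by
      have := (Prod.ext_iff.1 (ρ.injective (Prod.ext (hblock i) hh))).2
      simp at this
    generalize (ρ (i, 0)).2 = a at e1 e2 e3
    generalize (ρ (i, 1)).2 = b at e1 e2 e3
    generalize (ρ (i', 0)).2 = c at e1 e2 e3
    revert a b c
    decide
  have hε : ∀ i, Function.Injective fun j : Fin 2 => (ρ (i, j)).2 := by
    intro i j j' hjj
    have hjj' : (ρ (i, j)).2 = (ρ (i, j')).2 := hjj
    exact (Prod.ext_iff.1 (ρ.injective (Prod.ext ((hfst i j).trans (hfst i j').symm) hjj'))).2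
  refine ⟨(Equiv.ofBijective _ (Finite.injective_iff_bijective.1 hτ),
    fun i => Equiv.ofBijective _ (Finite.injective_iff_bijective.1 (hε i))), ?_⟩
  ext1 ⟨i, j⟩
  rw [Phi_apply]
  exact Prod.ext (hfst i j).symm rfl

theorem T_pair (κ : ℝ) (k : Fin m) (ε : Perm (Fin 2)) :
    T m κ (ee m (k, ε 0)) (ee m (k, ε 1)) = ((Perm.sign ε : ℤ) : ℝ) * (κ * 2 ^ (2 * (k : ℕ))) := by
  have hε : ε = 1 ∨ ε = Equiv.swap 0 1 := by revert ε; decide
  rcases hε with rfl | rfl
  · rw [T, Matrix.of_apply, if_pos (by rw [ee_val, ee_val]; simp)]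
    simp [ee_val]
  · rw [T, Matrix.of_apply, if_neg (by rw [ee_val, ee_val]; simp; omega), if_pos (by
      rw [ee_val, ee_val]; simp)]
    simp [ee_val]

theorem pf_T (m : ℕ) (κ : ℝ) : pf (T m κ) = κ ^ m * 2 ^ (m * (m - 1)) := by
  have hprod : ∏ k : Fin m, (κ * 2 ^ (2 * (k : ℕ))) = κ ^ m * 2 ^ (m * (m - 1)) := by
    rw [prod_mul_distrib, prod_const, card_univ, Fintype.card_fin, prod_pow_eq_pow_sum]
    congr 2
    rw [← mul_sum, Fin.sum_univ_eq_sum_range (fun k => k), mul_comm, sum_range_id_mul_two]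
  have hsum : (∑ σ : Equiv.Perm (Fin (2 * m)), ((Equiv.Perm.sign σ : ℤ) : ℝ)
      * ∏ i : Fin m, T m κ (σ (pr m i 0)) (σ (pr m i 1))) =
      ∑ _p : Perm (Fin m) × (Fin m → Perm (Fin 2)), κ ^ m * 2 ^ (m * (m - 1)) := by
    rw [← Equiv.sum_comp (Equiv.permCongr (ee m))]
    symm
    refine Fintype.sum_of_injective (Phi m) Phi_inj _ _ ?_ ?_
    · intro ρ hρ
      by_contra hne
      apply hρ
      apply range_Phi κ
      intro i hi
      apply hne
      rw [prod_eq_zero (mem_univ i), mul_zero]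
      have h2 : ∀ j, (Equiv.permCongr (ee m) ρ) (pr m i j) = ee m (ρ (i, j)) := by
        intro j
        rw [Equiv.permCongr_apply]
        have : (ee m).symm (pr m i j) = (i, j) := (ee m).left_inv (i, j)
        rw [this]
      rw [h2, h2]
      exact hi
    · intro p
      have h1 : ∀ i : Fin m, T m κ ((Equiv.permCongr (ee m) (Phi m p)) (pr m i 0))
          ((Equiv.permCongr (ee m) (Phi m p)) (pr m i 1)) =
          ((Perm.sign (p.2 i) : ℤ) : ℝ) * (κ * 2 ^ (2 * (p.1 i : ℕ))) := by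
        intro i
        rw [← T_pair κ (p.1 i) (p.2 i)]
        have h2 : ∀ j, (Equiv.permCongr (ee m) (Phi m p)) (pr m i j) = ee m (p.1 i, p.2 i j) := by
          intro j
          rw [Equiv.permCongr_apply]
          have : (ee m).symm (pr m i j) = (i, j) := (ee m).left_inv (i, j)
          rw [this, Phi_apply]
        rw [h2, h2]
      rw [Perm.sign_permCongr, Phi_sign, prod_congr rfl fun i _ => h1 i, prod_mul_distrib,
        Equiv.prod_comp p.1 (fun k : Fin m => κ * 2 ^ (2 * (k : ℕ))), hprod]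
      rw [← mul_assoc]
      have h3 : (((∏ i, Perm.sign (p.2 i) : ℤˣ) : ℤ) : ℝ) * ∏ i, ((Perm.sign (p.2 i) : ℤ) : ℝ) = 1 := by
        push_cast
        rw [← prod_mul_distrib]
        refine prod_eq_one fun i _ => ?_
        rcases Int.units_eq_one_or (Perm.sign (p.2 i)) with h | h <;> rw [h] <;> norm_num
      rw [h3, one_mul]
  unfold pf
  rw [hsum, sum_const, card_univ, Fintype.card_prod, Fintype.card_perm, Fintype.card_pi]
  simp only [Fintype.card_perm, Fintype.card_fin, prod_const, card_univ, nsmul_eq_mul]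
  have h4 : (m.factorial : ℝ) ≠ 0 := by positivity
  push_cast
  field_simp
  norm_num [mul_comm]

end Pool.Agent.X287.BP.Tri
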